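import Pool.Agent.TPX.Targets
import Pool.Agent.TPM.BLK

set_option autoImplicit false

/-! Wide moduli, two-point Elliott (MP_f3f922_nt): one dyadic block. -/

namespace Pool.Agent.TPX

open Finset Filter Pool.Agent.Ell Pool.Agent.TPM
open scoped BigOperators ComplexConjugate

namespace BLWaux

/-- the modulus is small -/
lemma mod_bound (θ c : ℝ) (hθ : 0 < θ) (hc : c ≤ θ / 4) (Q D r Y N : ℕ) (hN1 : 1 ≤ N)
    (hN : ⌈(Q : ℝ) ^ (16 / θ)⌉₊ ≤ N) (hD : D ≤ Q * 4 ^ Y) (hr : (r : ℝ) ≤ (N : ℝ) ^ (1 - θ))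
    (hY : (Y : ℝ) ≤ θ / 16 * Real.log N) :
    ((D * r : ℕ) : ℝ) * (N : ℝ) ^ (c / 4) ≤ (N : ℝ) ^ (1 - θ / 2) := by
  have hNpos : (0 : ℝ) < N := by exact_mod_cast hN1
  have hN1' : (1 : ℝ) ≤ N := by exact_mod_cast hN1
  have hQ : (Q : ℝ) ≤ (N : ℝ) ^ (θ / 16) := by
    have h1 : (Q : ℝ) ^ (16 / θ) ≤ N := (Nat.le_ceil _).trans (by exact_mod_cast hN)
    have h2 : ((Q : ℝ) ^ (16 / θ)) ^ (θ / 16) = Q := by
      rw [← Real.rpow_mul (by positivity)]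
      have : 16 / θ * (θ / 16) = 1 := by field_simp
      rw [this, Real.rpow_one]
    calc (Q : ℝ) = ((Q : ℝ) ^ (16 / θ)) ^ (θ / 16) := h2.symm
      _ ≤ (N : ℝ) ^ (θ / 16) := Real.rpow_le_rpow (by positivity) h1 (by positivity)
  have hlog4 : Real.log 4 ≤ 2 := by
    have h1 : Real.log 4 = 2 * Real.log 2 := by
      rw [show (4 : ℝ) = 2 ^ 2 by norm_num, Real.log_pow]
      norm_num
    have h2 := Real.log_two_lt_d9
    linarith
  have h4Y : (4 : ℝ) ^ Y ≤ (N : ℝ) ^ (θ / 8) := by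
    rw [← Real.rpow_natCast, Real.rpow_def_of_pos (by norm_num), Real.rpow_def_of_pos hNpos]
    apply Real.exp_le_exp.2
    have hY0 : (0 : ℝ) ≤ Y := Nat.cast_nonneg _
    have h1 : Real.log 4 * Y ≤ 2 * Y := mul_le_mul_of_nonneg_right hlog4 hY0
    calc Real.log 4 * Y ≤ 2 * Y := h1
      _ ≤ 2 * (θ / 16 * Real.log N) := by linarith
      _ = Real.log N * (θ / 8) := by ring
  have hD' : (D : ℝ) ≤ Q * 4 ^ Y := by exact_mod_cast hD
  have hcc : (N : ℝ) ^ (c / 4) ≤ (N : ℝ) ^ (θ / 16) :=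
    Real.rpow_le_rpow_of_exponent_le hN1' (by linarith)
  calc ((D * r : ℕ) : ℝ) * (N : ℝ) ^ (c / 4) = (D : ℝ) * r * (N : ℝ) ^ (c / 4) := by
        push_cast; ring
    _ ≤ ((N : ℝ) ^ (θ / 16) * (N : ℝ) ^ (θ / 8)) * (N : ℝ) ^ (1 - θ) * (N : ℝ) ^ (θ / 16) := by
        refine mul_le_mul (mul_le_mul (hD'.trans ?_) hr (by positivity) (by positivity)) hcc
          (by positivity) (by positivity)
        exact mul_le_mul hQ h4Y (by positivity) (by positivity)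
    _ = (N : ℝ) ^ (1 - 3 * θ / 4) := by
        rw [← Real.rpow_add hNpos, ← Real.rpow_add hNpos, ← Real.rpow_add hNpos]
        congr 1
        ring
    _ ≤ (N : ℝ) ^ (1 - θ / 2) := Real.rpow_le_rpow_of_exponent_le hN1' (by linarith)

end BLWaux

open Pool.Agent.Ell.KeyA Pool.Agent.Ell.KeyB Pool.Agent.Ell.KeyC TPM.BLKaux BLWaux in
theorem prove_BLW (h1 : T_MSW) (h2 : T_EQW) (h3 : T_OSC) (h4 : T_MNW) (h5 : T_XZ) (h6 : T_XZW) :
    T_BLW := by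
  classical
  intro a p p' C η θ ha hp hp' hpp hpa hpa' hC hη hθ hθ1
  obtain ⟨c1, N1, hc1, hc14, hEQ⟩ := h2 1 (fun _ => a) p p' C (θ / 2) le_rfl
    (fun i j _ => Subsingleton.elim i j) (fun _ => ha) hp.one_le hp'.one_le hpp hC
    (by positivity) (by linarith)
  obtain ⟨c0, hc0d⟩ : ∃ c0 : ℝ, c0 = min c1 (θ / 4) := ⟨_, rfl⟩
  have hc0 : 0 < c0 := by rw [hc0d]; exact lt_min hc1 (by positivity)
  have hc01 : c0 ≤ c1 := by rw [hc0d]; exact min_le_left _ _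
  have hc0θ : c0 ≤ θ / 4 := by rw [hc0d]; exact min_le_right _ _
  have hc04 : c0 ≤ 1 / 4 := hc01.trans hc14
  obtain ⟨B, N2, hB, hOSC⟩ := h3 1 (fun _ => a) p p' C (η / 2) le_rfl
    (fun i j _ => Subsingleton.elim i j) (fun _ => ha) hp.one_le hp'.one_le hpp hC (by positivity)
  obtain ⟨s, N3, hs, hMSU⟩ := h1 2 c0 (1 - θ / 2) (η / 2) (by norm_num) hc0 hc04 (by positivity)
  obtain ⟨z1, hMN⟩ := h4 a p p' (η / 2) ha hp hp' hpp (by positivity)
  refine ⟨s, θ / 16, B, max 4 (max p (max p' z1)), hs, by positivity, hB, ?_⟩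
  intro z V hz
  have hz4 : 4 ≤ z := le_trans (le_max_left _ _) hz
  have hzp : p ≤ z := le_trans (le_trans (le_max_left _ _) (le_max_right _ _)) hz
  have hzp' : p' ≤ z := le_trans (le_trans (le_trans (le_max_left _ _) (le_max_right _ _))
    (le_max_right _ _)) hz
  have hz1 : z1 ≤ z := le_trans (le_trans (le_trans (le_max_right _ _) (le_max_right _ _))
    (le_max_right _ _)) hz
  obtain ⟨R, hR⟩ := hMN z V hz1
  refine ⟨R, max (max N1 N2) (max N3 (max 1 ⌈(Rep.Q1 z V : ℝ) ^ (16 / θ)⌉₊)), ?_⟩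
  intro N w r Y ψ f t hN hw hr hrN hY hψ hf ht hcase x y hNx hxy hyN
  have hN1 : N1 ≤ N := le_trans (le_trans (le_max_left _ _) (le_max_left _ _)) hN
  have hN2 : N2 ≤ N := le_trans (le_trans (le_max_right _ _) (le_max_left _ _)) hN
  have hN3 : N3 ≤ N := le_trans (le_trans (le_max_left _ _) (le_max_right _ _)) hN
  have hN4 : 1 ≤ N := le_trans (le_trans (le_trans (le_max_left _ _) (le_max_right _ _))
    (le_max_right _ _)) hN
  have hN5 : ⌈(Rep.Q1 z V : ℝ) ^ (16 / θ)⌉₊ ≤ N := le_trans (le_trans (le_trans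
    (le_max_right _ _) (le_max_right _ _)) (le_max_right _ _)) hN
  have hNpos : (0 : ℝ) < N := by exact_mod_cast hN4
  obtain ⟨hD1, hD2, hD3, -⟩ := h6 z V Y r hr
  obtain ⟨-, hx2, -, hx4, hx5, -⟩ := h5.2 r ψ f t (DY z V Y r) hf hD1
  have hmodb := BLWaux.mod_bound θ c0 hθ hc0θ (Rep.Q1 z V) (DY z V Y r) r Y N hN4 hN5 hD2 hrN hY
  have hmnr := hR Y r ψ f t
  set D := DY z V Y r with hD
  have hmem : ∀ ℓ ∈ prs z w, z < ℓ ∧ ℓ.Prime := by
    intro ℓ hℓ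
    simp only [prs, Finset.mem_filter, Finset.mem_Ioc] at hℓ
    exact ⟨hℓ.1.1, hℓ.2⟩
  have hnp : ∀ ℓ ∈ prs z w, ¬ ℓ ∣ p := by
    intro ℓ hℓ h
    have := Nat.le_of_dvd hp.pos h
    have := (hmem ℓ hℓ).1
    omega
  have hnp' : ∀ ℓ ∈ prs z w, ¬ ℓ ∣ p' := by
    intro ℓ hℓ h
    have := Nat.le_of_dvd hp'.pos h
    have := (hmem ℓ hℓ).1
    omega
  set E : ℕ → ℂ := fun m => ei (PF (fun _ : Fin 1 => a) (fun _ => t) p p' 0 m) with hE
  set al2 : ∀ ℓ : ℕ, Fin 1 ⊕ Fin 1 → ZMod ℓ := fun ℓ =>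
    Sum.elim (fun _ : Fin 1 => al ℓ p a) (fun _ : Fin 1 => al ℓ p' a) with hal2
  set v2 : ℕ → Fin 1 ⊕ Fin 1 → ℂ := fun ℓ =>
    Sum.elim (fun _ : Fin 1 => zt f ψ t ℓ) (fun _ : Fin 1 => conj (zt f ψ t ℓ)) with hv2
  set u : ℕ → ℕ → ℂ := fun ℓ m => lf ℓ (al2 ℓ) (v2 ℓ) m - 1 with hu
  have hv2b : ∀ ℓ : ℕ, 1 ≤ ℓ → ∀ i, ‖v2 ℓ i‖ ≤ 1 := by
    intro ℓ hℓ i
    rcases i with j | j
    · exact hx2 ℓ hℓ
    · simp only [hv2, Sum.elim_inr, RCLike.norm_conj]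
      exact hx2 ℓ hℓ
  have hE1 : ∀ m, ‖E m‖ ≤ 1 := fun m => (norm_ei _).le
  have hyxN : y ≤ x + N := by omega
  -- the local functions
  have hloc : ∀ ℓ ∈ prs z w, Per ℓ (u ℓ) ∧
      ((Finset.univ : Finset (Fin 1 ⊕ Fin 1)).image (fun i => (al2 ℓ i).val)).card ≤ 2 ∧
      ∀ m, ‖1 + u ℓ m‖ ≤ 1 ∧ (u ℓ m ≠ 0 →
        m % ℓ ∈ (Finset.univ : Finset (Fin 1 ⊕ Fin 1)).image (fun i => (al2 ℓ i).val)) := by
    intro ℓ hℓ
    have hℓ' := (hmem ℓ hℓ).1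
    have : NeZero ℓ := ⟨by omega⟩
    refine ⟨per_lf ℓ (al2 ℓ) (v2 ℓ), ?_, ?_⟩
    · refine Finset.card_image_le.trans ?_
      simp
    · intro m
      refine ⟨?_, ?_⟩
      · have : 1 + u ℓ m = lf ℓ (al2 ℓ) (v2 ℓ) m := by simp only [hu]; ring
        rw [this]
        exact norm_lf ℓ (al2 ℓ) (v2 ℓ) (hv2b ℓ (by omega)) m
      · intro hne
        by_contra hcon
        apply hne
        have hno : ∀ i, ¬ ((m : ZMod ℓ) = al2 ℓ i) := by
          intro i hi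
          apply hcon
          rw [Finset.mem_image]
          refine ⟨i, Finset.mem_univ _, ?_⟩
          rw [← hi, ZMod.val_natCast]
        have : lf ℓ (al2 ℓ) (v2 ℓ) m = 1 := by
          unfold lf
          refine Finset.prod_eq_one (fun i _ => ?_)
          rw [if_neg (hno i)]
        simp [hu, this]
  have hzero : ∀ ℓ ∈ prs z w, ℓ ∣ D * r → ∀ m, u ℓ m = 0 := by
    intro ℓ hℓ hdvd m
    obtain ⟨hzl, hlp⟩ := hmem ℓ hℓ
    have hlr : ℓ ∣ r := by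
      rcases (Nat.Prime.dvd_mul hlp).1 hdvd with h | h
      · exact ((hD3 ℓ hlp hzl).1.1 h).1
      · exact h
    have hzt : zt f ψ t ℓ = 1 := by
      unfold zt
      rw [if_pos hlr]
    have hv1 : ∀ i, v2 ℓ i = 1 := by
      intro i
      rcases i with j | j
      · simp [hv2, hzt]
      · simp [hv2, hzt]
    have : lf ℓ (al2 ℓ) (v2 ℓ) m = 1 := by
      unfold lf
      refine Finset.prod_eq_one (fun i _ => ?_)
      rw [hv1 i]
      simp
    simp [hu, this]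
  have hq0 : 1 ≤ D * r := Nat.mul_pos hD1 hr
  have hmain := hMSU N z w (D * r) hN3 (by omega) hw hq0 hmodb E x y hE1 hxy hyxN
    (fun q ξ hq hqN hper hξ => (hEQ N (fun _ => t) hN1 (fun _ => ht) q ξ hq hqN hper hξ x y hNx
      hxy hyN).trans (Real.rpow_le_rpow_of_exponent_le (by exact_mod_cast hN4) (by linarith)))
    (Lm f ψ t D a p p') u
    (fun ℓ => (Finset.univ : Finset (Fin 1 ⊕ Fin 1)).image (fun i => (al2 ℓ i).val))
    (hx4 a p p') (hx5 a p p') hloc hzero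
  -- the sum in question
  have hsum : ∑ m ∈ Finset.Ioc x y, Gf f ψ t D z w (sh a (p * m)) *
      conj (Gf f ψ t D z w (sh a (p' * m))) =
      ∑ m ∈ Finset.Ioc x y, E m * (Lm f ψ t D a p p' m * ∏ ℓ ∈ prs z w, (1 + u ℓ m)) := by
    refine Finset.sum_congr rfl (fun m hm => ?_)
    rw [Finset.mem_Ioc] at hm
    have hm1 : 1 ≤ m := by omega
    rw [Gf_eq f ψ t D z w a p m hm1 hpa hnp, Gf_eq f ψ t D z w a p' m hm1 hpa' hnp']
    have hph := ph_cross (fun _ : Fin 1 => a) (fun _ => t) p p' m hm1 (fun _ => hpa)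
      (fun _ => hpa')
    have hE' : E m = ei (PF (fun _ : Fin 1 => a) (fun _ => t) p p' 0 m) := rfl
    rw [hE', ← hph]
    have hprod : ∏ ℓ ∈ prs z w, (1 + u ℓ m) =
        (∏ ℓ ∈ prs z w, lf ℓ (fun _ : Fin 1 => al ℓ p a) (fun _ => zt f ψ t ℓ) m) *
        conj (∏ ℓ ∈ prs z w, lf ℓ (fun _ : Fin 1 => al ℓ p' a) (fun _ => zt f ψ t ℓ) m) := by
      rw [map_prod, ← Finset.prod_mul_distrib]
      refine Finset.prod_congr rfl (fun ℓ _ => ?_)
      rw [conj_lf, lf_mul]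
      simp only [hu, hal2, hv2]
      ring
    rw [hprod]
    unfold Lm
    simp only [map_mul]
    ring
  rw [hsum]
  -- the main term
  have hprodn : ‖∏ ℓ ∈ prs z w, (1 + mean ℓ (u ℓ))‖ ≤ 1 := by
    refine norm_prod_le_one _ _ (fun ℓ hℓ => ?_)
    have := (hmem ℓ hℓ).2.one_le
    exact MSaux.norm_one_add_mean_le this (u ℓ) (fun m => ((hloc ℓ hℓ).2.2 m).1)
  have hmeann : ‖mean (D * r) (Lm f ψ t D a p p')‖ ≤ 1 :=
    MSaux.norm_mean_le hq0 _ (hx5 a p p')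
  have hSEn : ‖∑ m ∈ Finset.Ioc x y, E m‖ ≤ N := by
    refine (norm_sum_le _ _).trans ?_
    refine (Finset.sum_le_sum (fun m _ => hE1 m)).trans ?_
    simp only [Finset.sum_const, Nat.card_Ioc, nsmul_eq_mul, mul_one]
    have : y - x ≤ N := by omega
    exact_mod_cast this
  have hterm : ‖mean (D * r) (Lm f ψ t D a p p') * (∏ ℓ ∈ prs z w, (1 + mean ℓ (u ℓ))) *
      ∑ m ∈ Finset.Ioc x y, E m‖ ≤ η / 2 * N := by
    rw [norm_mul, norm_mul]
    rcases hcase with hc | hc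
    · have hm := hmnr hc hψ hf
      calc ‖mean (D * r) (Lm f ψ t D a p p')‖ * ‖∏ ℓ ∈ prs z w, (1 + mean ℓ (u ℓ))‖ *
            ‖∑ m ∈ Finset.Ioc x y, E m‖ ≤ (η / 2 * 1) * N :=
            mul_le_mul (mul_le_mul hm hprodn (norm_nonneg _) (by positivity)) hSEn
              (norm_nonneg _) (by positivity)
        _ = η / 2 * N := by ring
    · have hL := Lam_one a t N B ha hNpos hc
      have ho := hOSC N (fun _ => t) hN2 (fun _ => ht) hL x y hNx hxy hyN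
      calc ‖mean (D * r) (Lm f ψ t D a p p')‖ * ‖∏ ℓ ∈ prs z w, (1 + mean ℓ (u ℓ))‖ *
            ‖∑ m ∈ Finset.Ioc x y, E m‖ ≤ (1 * 1) * (η / 2 * N) :=
            mul_le_mul (mul_le_mul hmeann hprodn (norm_nonneg _) zero_le_one) ho
              (norm_nonneg _) (by norm_num)
        _ = η / 2 * N := by ring
  set S1 := ∑ m ∈ Finset.Ioc x y, E m * (Lm f ψ t D a p p' m * ∏ ℓ ∈ prs z w, (1 + u ℓ m))
    with hS1
  set S2 := mean (D * r) (Lm f ψ t D a p p') * (∏ ℓ ∈ prs z w, (1 + mean ℓ (u ℓ))) *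
      ∑ m ∈ Finset.Ioc x y, E m with hS2
  calc ‖S1‖ = ‖(S1 - S2) + S2‖ := by rw [sub_add_cancel]
    _ ≤ ‖S1 - S2‖ + ‖S2‖ := norm_add_le _ _
    _ ≤ η / 2 * N + η / 2 * N := add_le_add hmain hterm
    _ = η * N := by ring

end Pool.Agent.TPX
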