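import Pool.Agent.TPX.Targets
import Pool.Agent.Ell.EQ

set_option autoImplicit false

/-! TPX-EQW: equidistribution in progressions for every modulus `Q ≤ N ^ (1 - θ)`. -/

namespace Pool.Agent.TPX

open Finset Filter Pool.Agent.Ell Pool.Agent.TPM
open scoped BigOperators ComplexConjugate

namespace EQW_

set_option maxHeartbeats 2000000 in
theorem core (h1 : T_CORE) (h2 : T_PHI) : ∀ (k : ℕ) (a : Fin k → ℤ) (p q : ℕ) (C θ : ℝ), 1 ≤ k →
    Function.Injective a → (∀ j, a j ≠ 0) → 1 ≤ p → 1 ≤ q → p ≠ q → 0 < C → 0 < θ → θ ≤ 1 / 2 →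
    ∃ (c : ℝ) (N0 : ℕ), 0 < c ∧ c ≤ 1 / 4 ∧ ∀ (N : ℕ) (t : Fin k → ℝ), N0 ≤ N →
    (∀ j, |t j| ≤ (N : ℝ) ^ C) → ∀ (Q : ℕ) (ξ : ℕ → ℂ), 1 ≤ Q → (Q : ℝ) ≤ (N : ℝ) ^ (1 - θ) →
    Per Q ξ → (∀ m, ‖ξ m‖ ≤ 1) → ∀ x y : ℕ, N ≤ x → x ≤ y → y ≤ 2 * N →
    ‖∑ m ∈ Finset.Ioc x y, ei (PF a t p q 0 m) * ξ m -
      mean Q ξ * ∑ m ∈ Finset.Ioc x y, ei (PF a t p q 0 m)‖ ≤ (N : ℝ) ^ (1 - c) := by
  intro k a p q C θ hk ha ha0 hp hq hpq hC hθ hθ2
  obtain ⟨C', hC'1, hC'⟩ := EQ.lam_le a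
  set r : ℕ := ⌈2 * (C + 1) / θ⌉₊ with hr
  have hr0 : 2 * (C + 1) / θ ≤ (r : ℝ) := Nat.le_ceil _
  have hr1 : 2 * (C + 1) ≤ θ * (r : ℝ) := by
    rw [div_le_iff₀ hθ] at hr0
    linarith
  have hr1' : 1 ≤ r := by
    have h3 : (0 : ℝ) < 2 * (C + 1) / θ := by positivity
    exact Nat.one_le_iff_ne_zero.2 (Nat.ceil_pos.2 h3).ne'
  obtain ⟨c1, C1, Nphi, hc1, hC1, hNphi, hphi⟩ := h2 k a p q (r + 2) hk ha ha0 hp hq hpq
  obtain ⟨κ, K, hκ, hκ1, hK, hcore⟩ := h1 k r c1 C1 hk hr1' hc1 hC1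
  have hk1 : (1 : ℝ) ≤ k := by exact_mod_cast hk
  have hkpos : (0 : ℝ) < k := by linarith
  have hk2 : (1 : ℝ) ≤ (k : ℝ) ^ 2 := one_le_pow₀ hk1
  set τ : ℝ := κ * θ / (4 * (k : ℝ) ^ 2) with hτ
  have hτ0 : 0 < τ := by positivity
  set c : ℝ := min (1 / 8) (min (θ / 4) (τ / 2)) with hc
  have hc0 : 0 < c := lt_min (by norm_num) (lt_min (by positivity) (by positivity))
  have hc8 : c ≤ 1 / 8 := min_le_left _ _
  have hcθ : c ≤ θ / 4 := (min_le_right _ _).trans (min_le_left _ _)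
  have hcτ : c ≤ τ / 2 := (min_le_right _ _).trans (min_le_right _ _)
  obtain ⟨Na, hNa⟩ := EQ.big 1 C' one_pos
  obtain ⟨Nb, hNb⟩ := EQ.big (θ / 4) (2 * C1 + 2) (by positivity)
  obtain ⟨Nc, hNc⟩ := EQ.big (τ / 2) (6 * K) (by positivity)
  obtain ⟨Nd, hNd⟩ := EQ.big 1 Nphi one_pos
  obtain ⟨Ne, hNe⟩ := EQ.big θ 4 hθ
  refine ⟨c, max (max Na Nb) (max (max Nc Nd) (max Ne 1)), hc0, by linarith, ?_⟩
  intro N t hN ht Q ξ hQ hQN hper hξ x y hNx hxy hy
  have hNa' := hNa N (by omega)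
  have hNb' := hNb N (by omega)
  have hNc' := hNc N (by omega)
  have hNd' := hNd N (by omega)
  have hNe' := hNe N (by omega)
  rw [Real.rpow_one] at hNa' hNd'
  have hN1 : (1 : ℝ) ≤ N := by
    have : 1 ≤ N := by omega
    exact_mod_cast this
  have hN0 : (0 : ℝ) < N := by linarith
  have hQ1 : (1 : ℝ) ≤ Q := by exact_mod_cast hQ
  have hQ0 : (0 : ℝ) < Q := by linarith
  have hxN : (N : ℝ) ≤ x := by exact_mod_cast hNx
  have hy2 : (y : ℝ) ≤ 2 * N := by exact_mod_cast hy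
  have hxy' : (x : ℝ) ≤ y := by exact_mod_cast hxy
  set Λ := Lam a t N with hΛ
  have hL0 : 0 ≤ Λ := EQ.lam_nonneg a t N hN0.le
  -- N ^ (1 - c) ≤ ...
  have hcomb : ∑ m ∈ Finset.Ioc x y, ei (PF a t p q 0 m) * ξ m -
      mean Q ξ * ∑ m ∈ Finset.Ioc x y, ei (PF a t p q 0 m) =
      ∑ m ∈ Finset.Ioc x y, ei (PF a t p q 0 m) * (ξ m - mean Q ξ) := by
    rw [Finset.mul_sum, ← Finset.sum_sub_distrib]
    exact Finset.sum_congr rfl fun m _ => by ring
  by_cases hslow : Λ ≤ (N : ℝ) ^ (θ / 2)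
  · -- slow case
    have hof := hphi t N 1 0 hNd' le_rfl (by simpa using hN1) (Nat.zero_le _)
    rw [EQ.SC_one] at hof
    simp only [Nat.cast_one, div_one] at hof
    rw [hcomb]
    have hω : ∀ m m' : ℕ, x < m → m ≤ m' → m' ≤ y → m' ≤ m + Q →
        ‖ei (PF a t p q 0 m') - ei (PF a t p q 0 m)‖ ≤ C1 * Λ / N * Q := by
      intro m m' h3 h4 h5 h6
      refine (EQ.ei_sub _ _).trans ?_
      have hm : (x : ℝ) ≤ m := by exact_mod_cast h3.le
      have hmm : (m : ℝ) ≤ m' := by exact_mod_cast h4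
      have hm' : (m' : ℝ) ≤ y := by exact_mod_cast h5
      have hmQ : (m' : ℝ) ≤ m + Q := by exact_mod_cast h6
      have hd := (convex_Icc (N / 4 : ℝ) (8 * N)).norm_image_sub_le_of_norm_hasDerivWithin_le
        (f := PF a t p q 0) (f' := PF a t p q 1) (C := C1 * Λ / N)
        (fun u hu => (hof.der 0 u hu.1 hu.2).hasDerivWithinAt)
        (fun u hu => by
          have := hof.up 1 u le_rfl (by omega) hu.1 hu.2
          rw [pow_one] at this
          rw [Real.norm_eq_abs]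
          exact this)
        (x := (m : ℝ)) (y := (m' : ℝ)) ⟨by linarith, by linarith⟩ ⟨by linarith, by linarith⟩
      rw [Real.norm_eq_abs, Real.norm_eq_abs] at hd
      refine hd.trans ?_
      refine mul_le_mul_of_nonneg_left ?_ (by positivity)
      rw [abs_of_nonneg (by linarith)]
      linarith
    have hs := EQ.slow Q ξ (fun m => ei (PF a t p q 0 m)) hQ hper hξ
      (fun m => (EQ.norm_ei _).le) y (C1 * Λ / N * Q) (by positivity) (y - x) x (by omega) hω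
    refine hs.trans ?_
    have hyx : ((y - x : ℕ) : ℝ) ≤ N := by
      push_cast [hxy]
      linarith
    have e1 : 2 * (C1 * Λ / N * Q) * ((y - x : ℕ) : ℝ) ≤ 2 * C1 * (Q * Λ) := by
      calc 2 * (C1 * Λ / N * Q) * ((y - x : ℕ) : ℝ) ≤ 2 * (C1 * Λ / N * Q) * N :=
            mul_le_mul_of_nonneg_left hyx (by positivity)
        _ = _ := by
            field_simp
    have e2 : Q * Λ ≤ (N : ℝ) ^ (1 - θ + θ / 2) := by
      rw [Real.rpow_add hN0]
      exact mul_le_mul hQN hslow hL0 (by positivity)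
    have e3 : (Q : ℝ) ≤ (N : ℝ) ^ (1 - θ + θ / 2) :=
      hQN.trans (Real.rpow_le_rpow_of_exponent_le hN1 (by linarith))
    calc 2 * (C1 * Λ / N * Q) * ((y - x : ℕ) : ℝ) + 2 * Q
        ≤ 2 * C1 * (N : ℝ) ^ (1 - θ + θ / 2) + 2 * (N : ℝ) ^ (1 - θ + θ / 2) := by
          have := mul_le_mul_of_nonneg_left e2 (show 0 ≤ 2 * C1 by positivity)
          linarith
      _ = (2 * C1 + 2) * (N : ℝ) ^ (1 - θ + θ / 2) := by ring
      _ ≤ (N : ℝ) ^ (θ / 4) * (N : ℝ) ^ (1 - θ + θ / 2) :=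
          mul_le_mul_of_nonneg_right hNb' (by positivity)
      _ = (N : ℝ) ^ (θ / 4 + (1 - θ + θ / 2)) := by rw [← Real.rpow_add hN0]
      _ ≤ (N : ℝ) ^ (1 - c) := Real.rpow_le_rpow_of_exponent_le hN1 (by linarith)
  · -- fast case
    push Not at hslow
    set M : ℝ := (N : ℝ) / Q with hM
    have hMge : (N : ℝ) ^ θ ≤ M := by
      rw [hM, le_div_iff₀ hQ0]
      calc (N : ℝ) ^ θ * Q ≤ (N : ℝ) ^ θ * (N : ℝ) ^ (1 - θ) :=
            mul_le_mul_of_nonneg_left hQN (by positivity)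
        _ = (N : ℝ) ^ (θ + (1 - θ)) := by rw [← Real.rpow_add hN0]
        _ ≤ (N : ℝ) ^ (1 : ℝ) := Real.rpow_le_rpow_of_exponent_le hN1 (by linarith)
        _ = N := Real.rpow_one _
    have hM4 : 4 ≤ M := hNe'.trans hMge
    have hM0 : 0 < M := by linarith
    have hQleN : (Q : ℝ) ≤ N := by
      have : M * Q = N := by rw [hM]; field_simp
      nlinarith
    have hQleNn : Q ≤ N := by exact_mod_cast hQleN
    have hL1 : 1 ≤ Λ := by
      have : (1 : ℝ) ≤ (N : ℝ) ^ (θ / 2) := Real.one_le_rpow hN1 (by positivity)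
      linarith
    have hLu : Λ ≤ M ^ ((r : ℝ) / 2) := by
      calc Λ ≤ C' * (N : ℝ) ^ C := hC' t N _ hN1 (by positivity) ht
        _ ≤ N * (N : ℝ) ^ C := mul_le_mul_of_nonneg_right hNa' (by positivity)
        _ = (N : ℝ) ^ (1 + C) := by rw [Real.rpow_add hN0, Real.rpow_one]
        _ ≤ (N : ℝ) ^ (θ * ((r : ℝ) / 2)) :=
            Real.rpow_le_rpow_of_exponent_le hN1 (by linarith)
        _ = ((N : ℝ) ^ θ) ^ ((r : ℝ) / 2) := by rw [Real.rpow_mul hN0.le]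
        _ ≤ _ := Real.rpow_le_rpow (by positivity) hMge (by positivity)
    have hex : (0 : ℝ) ≤ 1 / (2 * (k : ℝ) ^ 2) := by positivity
    have hη0 : 0 < M ^ (-(1 / (2 * (k : ℝ) ^ 2))) := by positivity
    have hη1 : M ^ (-(1 / (2 * (k : ℝ) ^ 2))) ≤ 1 :=
      Real.rpow_le_one_of_one_le_of_nonpos (by linarith) (by linarith)
    have hκθ : 0 < κ * θ := by positivity
    have hτκ : τ ≤ κ * θ / 4 := by
      rw [hτ]
      rw [div_le_div_iff₀ (by positivity) (by norm_num)]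
      nlinarith
    have hb1 : Λ ^ (-κ) ≤ (N : ℝ) ^ (-τ) := by
      calc Λ ^ (-κ) ≤ ((N : ℝ) ^ (θ / 2)) ^ (-κ) :=
            Real.rpow_le_rpow_of_nonpos (by positivity) hslow.le (by linarith)
        _ = (N : ℝ) ^ (θ / 2 * (-κ)) := by rw [← Real.rpow_mul hN0.le]
        _ ≤ _ := Real.rpow_le_rpow_of_exponent_le hN1 (by linarith)
    have hb2 : M ^ (-κ) ≤ (N : ℝ) ^ (-τ) := by
      calc M ^ (-κ) ≤ ((N : ℝ) ^ θ) ^ (-κ) :=
            Real.rpow_le_rpow_of_nonpos (by positivity) hMge (by linarith)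
        _ = (N : ℝ) ^ (θ * (-κ)) := by rw [← Real.rpow_mul hN0.le]
        _ ≤ _ := Real.rpow_le_rpow_of_exponent_le hN1 (by linarith)
    have hb3 : (M ^ (-(1 / (2 * (k : ℝ) ^ 2)))) ^ κ ≤ (N : ℝ) ^ (-τ) := by
      rw [← Real.rpow_mul hM0.le]
      have e : θ * (-(1 / (2 * (k : ℝ) ^ 2)) * κ) = -(2 * τ) := by
        rw [hτ]
        field_simp
        ring
      have e' : -(1 / (2 * (k : ℝ) ^ 2)) * κ ≤ 0 := by
        have : 0 ≤ 1 / (2 * (k : ℝ) ^ 2) * κ := by positivity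
        linarith
      calc M ^ (-(1 / (2 * (k : ℝ) ^ 2)) * κ) ≤ ((N : ℝ) ^ θ) ^ (-(1 / (2 * (k : ℝ) ^ 2)) * κ) :=
            Real.rpow_le_rpow_of_nonpos (by positivity) hMge e'
        _ = (N : ℝ) ^ (-(2 * τ)) := by rw [← Real.rpow_mul hN0.le, e]
        _ ≤ _ := Real.rpow_le_rpow_of_exponent_le hN1 (by linarith)
    have hclass : ∀ b ∈ range Q, ‖∑ m ∈ Finset.Ioc ((x - b) / Q) ((y - b) / Q),
        ei (PF a t p q 0 ((b + Q * m : ℕ) : ℝ))‖ ≤ 3 * K * M * (N : ℝ) ^ (-τ) := by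
      intro b hb
      rw [Finset.mem_range] at hb
      have hof := hphi t N Q b hNd' hQ hQleN hb.le
      have hbx : b ≤ x := by omega
      have hby : b ≤ y := by omega
      have hbQ : (b : ℝ) ≤ Q := by exact_mod_cast hb.le
      have hx1 : M / 2 ≤ (((x - b) / Q : ℕ) : ℝ) := by
        have h3 : x - b < ((x - b) / Q + 1) * Q := by
          have := Nat.lt_div_mul_add (a := x - b) hQ
          nlinarith
        have h4 : ((x - b : ℕ) : ℝ) < ((((x - b) / Q : ℕ) : ℝ) + 1) * Q := by exact_mod_cast h3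
        rw [Nat.cast_sub hbx] at h4
        have h5 : M * Q = N := by rw [hM]; field_simp
        by_contra hcon
        push Not at hcon
        have h6 : ((((x - b) / Q : ℕ) : ℝ) + 1) * Q < (M / 2 + 1) * Q :=
          mul_lt_mul_of_pos_right (by linarith) hQ0
        nlinarith
      have hy1 : (((y - b) / Q : ℕ) : ℝ) ≤ 4 * M := by
        have h3 : (y - b) / Q * Q ≤ y - b := Nat.div_mul_le_self _ _
        have h4 : (((y - b) / Q : ℕ) : ℝ) * Q ≤ y := by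
          have : (((y - b) / Q * Q : ℕ) : ℝ) ≤ ((y - b : ℕ) : ℝ) := by exact_mod_cast h3
          rw [Nat.cast_mul, Nat.cast_sub hby] at this
          have hb0 : (0 : ℝ) ≤ b := Nat.cast_nonneg _
          linarith
        have h5 : M * Q = N := by rw [hM]; field_simp
        have h6 : (((y - b) / Q : ℕ) : ℝ) * Q ≤ (4 * M) * Q := by nlinarith
        exact le_of_mul_le_mul_right h6 hQ0
      have hmain := hcore M Λ (M ^ (-(1 / (2 * (k : ℝ) ^ 2)))) (SC Q b (PF a t p q)) (by linarith)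
        hL1 hLu hη0 hη1 hof ((x - b) / Q) ((y - b) / Q) hx1
        (Nat.div_le_div_right (by omega)) hy1
      have he : ∀ m : ℕ, SC Q b (PF a t p q) 0 m = PF a t p q 0 ((b + Q * m : ℕ) : ℝ) := by
        intro m
        simp only [SC, pow_zero, one_mul]
        push_cast
        rfl
      simp only [he] at hmain
      exact hmain.trans (EQ.core_bound κ K Λ M _ hK τ N hM0.le hb1 hb2 hb3)
    -- any bounded periodic weight
    have hall : ∀ ζ : ℕ → ℂ, Per Q ζ → (∀ m, ‖ζ m‖ ≤ 1) →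
        ‖∑ m ∈ Finset.Ioc x y, ei (PF a t p q 0 m) * ζ m‖ ≤ 3 * K * N * (N : ℝ) ^ (-τ) := by
      intro ζ hζ hζ1
      rw [EQ.classes Q ζ (fun m => ei (PF a t p q 0 m)) hQ hζ x y (by omega)]
      refine (norm_sum_le _ _).trans ?_
      calc ∑ b ∈ range Q, ‖ζ b * ∑ m ∈ Finset.Ioc ((x - b) / Q) ((y - b) / Q),
            ei (PF a t p q 0 ((b + Q * m : ℕ) : ℝ))‖
          ≤ ∑ b ∈ range Q, (3 * K * M * (N : ℝ) ^ (-τ)) := by
            refine Finset.sum_le_sum fun b hb => ?_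
            rw [norm_mul]
            calc ‖ζ b‖ * ‖∑ m ∈ Finset.Ioc ((x - b) / Q) ((y - b) / Q),
                ei (PF a t p q 0 ((b + Q * m : ℕ) : ℝ))‖ ≤ 1 * (3 * K * M * (N : ℝ) ^ (-τ)) :=
                  mul_le_mul (hζ1 b) (hclass b hb) (norm_nonneg _) zero_le_one
              _ = _ := one_mul _
        _ = 3 * K * (M * Q) * (N : ℝ) ^ (-τ) := by
            rw [Finset.sum_const, Finset.card_range, nsmul_eq_mul]
            ring
        _ = 3 * K * N * (N : ℝ) ^ (-τ) := by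
            have h5 : M * Q = N := by rw [hM]; field_simp
            rw [h5]
    have hm := EQ.mean_norm Q ξ hQ hξ
    have hA := hall ξ hper hξ
    have hB := hall (fun _ => 1) (fun _ => rfl) (fun _ => by simp)
    simp only [mul_one] at hB
    calc ‖∑ m ∈ Finset.Ioc x y, ei (PF a t p q 0 m) * ξ m -
          mean Q ξ * ∑ m ∈ Finset.Ioc x y, ei (PF a t p q 0 m)‖
        ≤ ‖∑ m ∈ Finset.Ioc x y, ei (PF a t p q 0 m) * ξ m‖ +
          ‖mean Q ξ * ∑ m ∈ Finset.Ioc x y, ei (PF a t p q 0 m)‖ := norm_sub_le _ _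
      _ ≤ 3 * K * N * (N : ℝ) ^ (-τ) + 1 * (3 * K * N * (N : ℝ) ^ (-τ)) := by
          refine add_le_add hA ?_
          rw [norm_mul]
          exact mul_le_mul hm hB (norm_nonneg _) zero_le_one
      _ = 6 * K * (N * (N : ℝ) ^ (-τ)) := by ring
      _ ≤ (N : ℝ) ^ (τ / 2) * (N * (N : ℝ) ^ (-τ)) :=
          mul_le_mul_of_nonneg_right hNc' (by positivity)
      _ = (N : ℝ) ^ (τ / 2 + (1 + -τ)) := by
          rw [Real.rpow_add hN0, Real.rpow_add hN0, Real.rpow_one]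
      _ ≤ (N : ℝ) ^ (1 - c) := Real.rpow_le_rpow_of_exponent_le hN1 (by linarith)

end EQW_

theorem prove_EQW (h1 : T_CORE) (h2 : T_PHI) : T_EQW := by
  intro k a p q C θ hk ha ha0 hp hq hpq hC hθ _
  obtain ⟨c, N0, hc, hc4, h⟩ := EQW_.core h1 h2 k a p q C (min θ (1 / 2)) hk ha ha0 hp hq hpq hC
    (lt_min hθ (by norm_num)) (min_le_right _ _)
  refine ⟨c, max N0 1, hc, hc4, ?_⟩
  intro N t hN ht Q ξ hQ hQN hper hξ x y hNx hxy hy
  have hN1 : (1 : ℝ) ≤ N := by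
    have : 1 ≤ N := by omega
    exact_mod_cast this
  refine h N t (by omega) ht Q ξ hQ (hQN.trans ?_) hper hξ x y hNx hxy hy
  refine Real.rpow_le_rpow_of_exponent_le hN1 ?_
  have := min_le_left θ (1 / 2 : ℝ)
  linarith

end Pool.Agent.TPX
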