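import Pool.Agent.TPX.Targets
import Pool.Agent.TPM.Targets
import Pool.Agent.Ell.MS

set_option autoImplicit false

/-! `T_MSW`: correlation of a phase with a product of local functions, wide range of moduli. -/

namespace Pool.Agent.TPX.MSW_

open Finset Pool.Agent.Ell Pool.Agent.Ell.MSaux Pool.Agent.TPM
open scoped BigOperators ComplexConjugate

/-- one term -/
lemma term (hCRT : T_CRT) {c ϑ : ℝ} {q0 N z w x y : ℕ} (hq0 : 1 ≤ q0) (hN : 1 ≤ N)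
    (hbig : (q0 : ℝ) * (N : ℝ) ^ (c / 4) ≤ (N : ℝ) ^ ϑ)
    (E : ℕ → ℂ)
    (hyp : ∀ (q : ℕ) (ξ : ℕ → ℂ), 1 ≤ q → (q : ℝ) ≤ (N : ℝ) ^ ϑ → Per q ξ → (∀ m, ‖ξ m‖ ≤ 1) →
      ‖∑ m ∈ Finset.Ioc x y, E m * ξ m - mean q ξ * ∑ m ∈ Finset.Ioc x y, E m‖ ≤
        (N : ℝ) ^ (1 - c))
    (ξ : ℕ → ℂ) (u : ℕ → ℕ → ℂ) (hξ : Per q0 ξ) (hξ1 : ∀ m, ‖ξ m‖ ≤ 1)
    (hu : ∀ l ∈ prs z w, Per l (u l) ∧ ∀ m, ‖1 + u l m‖ ≤ 1)
    (hu0 : ∀ l ∈ prs z w, l ∣ q0 → ∀ m, u l m = 0)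
    (S : Finset ℕ) (hS : S ⊆ prs z w) (hQ : ((∏ l ∈ S, l : ℕ) : ℝ) ≤ (N : ℝ) ^ (c / 4)) :
    ‖∑ m ∈ Finset.Ioc x y, E m * (ξ m * ∏ l ∈ S, u l m) -
      mean q0 ξ * (∏ l ∈ S, mean l (u l)) * ∑ m ∈ Finset.Ioc x y, E m‖ ≤
      (N : ℝ) ^ (c / 4) * (N : ℝ) ^ (1 - c) := by
  by_cases hex : ∃ l ∈ S, l ∣ q0
  · obtain ⟨l, hl, hd⟩ := hex
    have h0 := hu0 l (hS hl) hd
    have h1 : ∀ m, ∏ l ∈ S, u l m = 0 := fun m => Finset.prod_eq_zero hl (h0 m)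
    have h2 : ∏ l ∈ S, mean l (u l) = 0 := by
      refine Finset.prod_eq_zero hl ?_
      unfold mean
      rw [Finset.sum_eq_zero (fun m _ => h0 m), zero_div]
    simp only [h1, h2, mul_zero, zero_mul, Finset.sum_const_zero, sub_zero, norm_zero]
    positivity
  have hcrt := hCRT q0 ξ S u hq0 hξ (fun l hl => by
    have hl' := Finset.mem_filter.1 (hS hl)
    exact ⟨hl'.2, fun hd => hex ⟨l, hl, hd⟩, (hu l (hS hl)).1⟩)
  have hQ1 : 1 ≤ ∏ l ∈ S, l := Nat.one_le_iff_ne_zero.2 (Finset.prod_ne_zero_iff.2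
        (fun l hl => ((Finset.mem_filter.1 (hS hl)).2).ne_zero))
  obtain ⟨Q, hQdef⟩ : ∃ Q, Q = ∏ l ∈ S, l := ⟨_, rfl⟩
  rw [← hQdef] at hcrt hQ hQ1
  have hQR : (1 : ℝ) ≤ (Q : ℝ) := by exact_mod_cast hQ1
  have hQ0 : (0 : ℝ) < (Q : ℝ) := by linarith
  have hQC : (Q : ℂ) ≠ 0 := by exact_mod_cast (by omega : Q ≠ 0)
  rw [← hcrt]
  -- the function divided by Q
  have hper : Per (q0 * Q) (fun m => ξ m * ∏ l ∈ S, u l m) := by
    intro m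
    have h1 : ξ (m + q0 * Q) = ξ m := per_dvd hξ (Dvd.intro _ rfl) m
    have h2 : ∀ l ∈ S, u l (m + q0 * Q) = u l m := by
      intro l hl
      refine per_dvd (hu l (hS hl)).1 ?_ m
      exact Dvd.dvd.mul_left (hQdef ▸ Finset.dvd_prod_of_mem _ hl) _
    show ξ (m + q0 * Q) * ∏ l ∈ S, u l (m + q0 * Q) = ξ m * ∏ l ∈ S, u l m
    rw [h1, Finset.prod_congr rfl h2]
  have hbd : ∀ m, ‖ξ m * ∏ l ∈ S, u l m‖ ≤ Q := by
    intro m
    rw [norm_mul, norm_prod]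
    calc ‖ξ m‖ * ∏ l ∈ S, ‖u l m‖ ≤ 1 * ∏ l ∈ S, (2 : ℝ) := by
          refine mul_le_mul (hξ1 m) (Finset.prod_le_prod (fun _ _ => norm_nonneg _)
            (fun l hl => norm_le_two ((hu l (hS hl)).2 m)))
            (Finset.prod_nonneg (fun _ _ => norm_nonneg _)) zero_le_one
      _ = ((2 ^ S.card : ℕ) : ℝ) := by rw [Finset.prod_const, one_mul]; push_cast; rfl
      _ ≤ Q := by rw [hQdef]; exact_mod_cast two_pow_card_le hS
  have hlen : ((q0 * Q : ℕ) : ℝ) ≤ (N : ℝ) ^ ϑ := by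
    push_cast
    calc (q0 : ℝ) * Q ≤ q0 * (N : ℝ) ^ (c / 4) := by gcongr
      _ ≤ _ := hbig
  have hq : 1 ≤ q0 * Q := Nat.one_le_iff_ne_zero.2 (Nat.mul_ne_zero (by omega) (by omega))
  have hmain := hyp (q0 * Q) (fun m => (ξ m * ∏ l ∈ S, u l m) / Q) hq hlen
    (fun m => congrArg (fun v : ℂ => v / Q) (hper m))
    (fun m => by
      rw [norm_div, Complex.norm_natCast, div_le_one hQ0]
      exact hbd m)
  have hmean : mean (q0 * Q) (fun m => (ξ m * ∏ l ∈ S, u l m) / Q) =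
      mean (q0 * Q) (fun m => ξ m * ∏ l ∈ S, u l m) / Q := by
    unfold mean
    rw [← Finset.sum_div]
    field_simp
  have hsum : ∑ m ∈ Finset.Ioc x y, E m * ((ξ m * ∏ l ∈ S, u l m) / Q) =
      (∑ m ∈ Finset.Ioc x y, E m * (ξ m * ∏ l ∈ S, u l m)) / Q := by
    rw [Finset.sum_div]
    exact Finset.sum_congr rfl (fun m _ => by ring)
  rw [hmean, hsum] at hmain
  have h3 : (∑ m ∈ Finset.Ioc x y, E m * (ξ m * ∏ l ∈ S, u l m)) / (Q : ℂ) -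
      mean (q0 * Q) (fun m => ξ m * ∏ l ∈ S, u l m) / Q * ∑ m ∈ Finset.Ioc x y, E m =
      (∑ m ∈ Finset.Ioc x y, E m * (ξ m * ∏ l ∈ S, u l m) -
      mean (q0 * Q) (fun m => ξ m * ∏ l ∈ S, u l m) * ∑ m ∈ Finset.Ioc x y, E m) / Q := by
    field_simp
  rw [h3, norm_div, Complex.norm_natCast, div_le_iff₀ hQ0] at hmain
  refine hmain.trans ?_
  rw [mul_comm]
  gcongr

end Pool.Agent.TPX.MSW_

namespace Pool.Agent.TPX

open Finset Pool.Agent.Ell Pool.Agent.Ell.MSaux Pool.Agent.TPM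
open scoped BigOperators ComplexConjugate

/-- `T_MSW` -/
theorem prove_MSW (h1 : T_FL) (h2 : T_CRT) : T_MSW := by
  intro r c ϑ δ hr hc hc4 hδ
  obtain ⟨s, N1, hs, hFL⟩ := h1 r (c / 4) (δ / 4) hr (by linarith) (by linarith) (by linarith)
  -- the large parameter
  have hev : ∀ᶠ N : ℕ in Filter.atTop, (4 / δ ≤ (N : ℝ) ^ (c / 2)) ∧ 1 ≤ N := by
    have t1 : Filter.Tendsto (fun N : ℕ => (N : ℝ) ^ (c / 2)) Filter.atTop Filter.atTop :=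
      (tendsto_rpow_atTop (by linarith)).comp tendsto_natCast_atTop_atTop
    exact (t1.eventually_ge_atTop _).and (Filter.eventually_ge_atTop 1)
  obtain ⟨N2, hN2⟩ := Filter.eventually_atTop.1 hev
  refine ⟨s, max N1 N2, hs, ?_⟩
  intro N z w q0 hN hz hw hq0 hbig E x y hE hxy hyN hyp ξ u R hξ hξ1 hu hu0
  obtain ⟨hNd, hN1⟩ := hN2 N ((le_max_right _ _).trans hN)
  have hNpos : (0 : ℝ) < N := by exact_mod_cast hN1
  have hN1R : (1 : ℝ) ≤ N := by exact_mod_cast hN1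
  obtain ⟨F, hF1, hF2, hF3⟩ := hFL N z w ((le_max_left _ _).trans hN) hz hw
  have hcard : (F.card : ℝ) ≤ (N : ℝ) ^ (c / 4) :=
    card_le F _ (Real.rpow_nonneg hNpos.le _) hF1
  -- numbers e
  have hprime : ∀ l ∈ prs z w, 1 ≤ l := fun l hl => (Finset.mem_filter.1 hl).2.one_lt.le
  have he := hF2 (fun l => mean l (u l)) (fun l hl =>
    ⟨norm_one_add_mean_le (hprime l hl) _ (fun m => ((hu l hl).2.2 m).1),
      norm_mean_le_div (hprime l hl) _ (R l) (hu l hl).2.1 (hu l hl).2.2⟩)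
  have hU := hF3 u R (fun l hl => (hu l hl).2) x
  -- names
  set SE : ℂ := ∑ m ∈ Finset.Ioc x y, E m with hSE
  set P : ℕ → ℂ := fun m => ∏ l ∈ prs z w, (1 + u l m) with hP
  set T : ℕ → ℂ := fun m => ∑ S ∈ F, ∏ l ∈ S, u l m with hT
  have hSEle : ‖SE‖ ≤ N := by
    calc ‖SE‖ ≤ ∑ m ∈ Finset.Ioc x y, ‖E m‖ := norm_sum_le _ _
      _ ≤ ∑ m ∈ Finset.Ioc x y, (1 : ℝ) := Finset.sum_le_sum (fun m _ => hE m)
      _ = ((y - x : ℕ) : ℝ) := by simp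
      _ ≤ N := by exact_mod_cast (by omega : y - x ≤ N)
  -- step 1
  have s1 : ‖∑ m ∈ Finset.Ioc x y, E m * (ξ m * P m) - ∑ m ∈ Finset.Ioc x y, E m * (ξ m * T m)‖
      ≤ δ / 4 * N := by
    rw [← Finset.sum_sub_distrib]
    calc ‖∑ m ∈ Finset.Ioc x y, (E m * (ξ m * P m) - E m * (ξ m * T m))‖
        ≤ ∑ m ∈ Finset.Ioc x y, ‖E m * (ξ m * P m) - E m * (ξ m * T m)‖ := norm_sum_le _ _
      _ ≤ ∑ m ∈ Finset.Ioc x y, ‖P m - T m‖ := by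
          refine Finset.sum_le_sum (fun m _ => ?_)
          have : E m * (ξ m * P m) - E m * (ξ m * T m) = E m * ξ m * (P m - T m) := by ring
          rw [this, norm_mul, norm_mul]
          calc ‖E m‖ * ‖ξ m‖ * ‖P m - T m‖ ≤ 1 * 1 * ‖P m - T m‖ := by
                gcongr
                · exact hE m
                · exact hξ1 m
            _ = ‖P m - T m‖ := by ring
      _ ≤ ∑ m ∈ Finset.Ioc x (x + N), ‖P m - T m‖ :=
          Finset.sum_le_sum_of_subset_of_nonneg (Finset.Ioc_subset_Ioc le_rfl hyN)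
            (fun _ _ _ => norm_nonneg _)
      _ ≤ δ / 4 * N := hU
  -- step 2
  have s2 : ‖∑ m ∈ Finset.Ioc x y, E m * (ξ m * T m) -
      mean q0 ξ * (∑ S ∈ F, ∏ l ∈ S, mean l (u l)) * SE‖ ≤ δ / 4 * N := by
    have e1 : ∑ m ∈ Finset.Ioc x y, E m * (ξ m * T m) =
        ∑ S ∈ F, ∑ m ∈ Finset.Ioc x y, E m * (ξ m * ∏ l ∈ S, u l m) := by
      rw [Finset.sum_comm]
      refine Finset.sum_congr rfl (fun m _ => ?_)
      rw [hT]
      simp only [Finset.mul_sum]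
    have e2 : mean q0 ξ * (∑ S ∈ F, ∏ l ∈ S, mean l (u l)) * SE =
        ∑ S ∈ F, mean q0 ξ * (∏ l ∈ S, mean l (u l)) * SE := by
      clear_value SE
      rw [Finset.mul_sum, Finset.sum_mul]
    rw [e1, e2, ← Finset.sum_sub_distrib]
    calc ‖∑ S ∈ F, (∑ m ∈ Finset.Ioc x y, E m * (ξ m * ∏ l ∈ S, u l m) -
          mean q0 ξ * (∏ l ∈ S, mean l (u l)) * SE)‖
        ≤ ∑ S ∈ F, ‖∑ m ∈ Finset.Ioc x y, E m * (ξ m * ∏ l ∈ S, u l m) -
          mean q0 ξ * (∏ l ∈ S, mean l (u l)) * SE‖ := norm_sum_le _ _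
      _ ≤ ∑ S ∈ F, (N : ℝ) ^ (c / 4) * (N : ℝ) ^ (1 - c) :=
          Finset.sum_le_sum (fun S hS => MSW_.term h2 hq0 hN1 hbig E hyp ξ u hξ hξ1
            (fun l hl => ⟨(hu l hl).1, fun m => ((hu l hl).2.2 m).1⟩) hu0 S (hF1 S hS).1
            (hF1 S hS).2)
      _ = F.card * ((N : ℝ) ^ (c / 4) * (N : ℝ) ^ (1 - c)) := by simp
      _ ≤ (N : ℝ) ^ (c / 4) * ((N : ℝ) ^ (c / 4) * (N : ℝ) ^ (1 - c)) := by gcongr
      _ = (N : ℝ) ^ (1 - c / 2) := by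
          rw [← Real.rpow_add hNpos, ← Real.rpow_add hNpos]; congr 1; ring
      _ ≤ δ / 4 * N := by
          have e3 : (N : ℝ) = (N : ℝ) ^ (1 - c / 2) * (N : ℝ) ^ (c / 2) := by
            rw [← Real.rpow_add hNpos]
            have : (1 - c / 2 + c / 2) = (1 : ℝ) := by ring
            rw [this, Real.rpow_one]
          have h4 : 1 ≤ δ / 4 * (N : ℝ) ^ (c / 2) := by
            have := mul_le_mul_of_nonneg_left hNd (by linarith : (0 : ℝ) ≤ δ / 4)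
            have h5 : δ / 4 * (4 / δ) = 1 := by field_simp
            linarith
          have h6 : (0 : ℝ) ≤ (N : ℝ) ^ (1 - c / 2) := Real.rpow_nonneg hNpos.le _
          calc (N : ℝ) ^ (1 - c / 2) = (N : ℝ) ^ (1 - c / 2) * 1 := by ring
            _ ≤ (N : ℝ) ^ (1 - c / 2) * (δ / 4 * (N : ℝ) ^ (c / 2)) := by gcongr
            _ = δ / 4 * ((N : ℝ) ^ (1 - c / 2) * (N : ℝ) ^ (c / 2)) := by ring
            _ = δ / 4 * N := by rw [← e3]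
  -- step 3
  have s3 : ‖mean q0 ξ * (∑ S ∈ F, ∏ l ∈ S, mean l (u l)) * SE -
      mean q0 ξ * (∏ l ∈ prs z w, (1 + mean l (u l))) * SE‖ ≤ δ / 4 * N := by
    have e : mean q0 ξ * (∑ S ∈ F, ∏ l ∈ S, mean l (u l)) * SE -
      mean q0 ξ * (∏ l ∈ prs z w, (1 + mean l (u l))) * SE = -(mean q0 ξ *
        (∏ l ∈ prs z w, (1 + mean l (u l)) - ∑ S ∈ F, ∏ l ∈ S, mean l (u l)) * SE) := by ring
    rw [e, norm_neg, norm_mul, norm_mul]
    calc ‖mean q0 ξ‖ * ‖∏ l ∈ prs z w, (1 + mean l (u l)) - ∑ S ∈ F, ∏ l ∈ S, mean l (u l)‖ * ‖SE‖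
        ≤ 1 * (δ / 4) * N := by
          gcongr
          exact norm_mean_le hq0 ξ hξ1
      _ = δ / 4 * N := by ring
  calc ‖∑ m ∈ Finset.Ioc x y, E m * (ξ m * P m) -
      mean q0 ξ * (∏ l ∈ prs z w, (1 + mean l (u l))) * SE‖
      = ‖(∑ m ∈ Finset.Ioc x y, E m * (ξ m * P m) - ∑ m ∈ Finset.Ioc x y, E m * (ξ m * T m)) +
        ((∑ m ∈ Finset.Ioc x y, E m * (ξ m * T m) -
          mean q0 ξ * (∑ S ∈ F, ∏ l ∈ S, mean l (u l)) * SE) +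
        (mean q0 ξ * (∑ S ∈ F, ∏ l ∈ S, mean l (u l)) * SE -
          mean q0 ξ * (∏ l ∈ prs z w, (1 + mean l (u l))) * SE))‖ := by congr 1; ring
    _ ≤ δ / 4 * N + (δ / 4 * N + δ / 4 * N) :=
        (norm_add_le _ _).trans (add_le_add s1 ((norm_add_le _ _).trans (add_le_add s2 s3)))
    _ ≤ δ * N := by nlinarith [mul_pos hδ hNpos]

end Pool.Agent.TPX
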