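import Pool.Agent.TPX.Targets
import Pool.Agent.TPM.STR

set_option autoImplicit false

/-! TPX-STW: the structure theorem in `L^1` with `D = DY z V Y r`. -/

namespace Pool.Agent.TPX

open Finset Filter Pool.Agent.Ell Pool.Agent.TPM
open scoped BigOperators ComplexConjugate

namespace STW_

lemma structure' {z V Y r n : ℕ} (hr : 1 ≤ r) (h3 : T_XZW) (hn : 0 < n) (hg : ¬ Rep.Bad z V n)
    (hY : ∀ p : ℕ, p.Prime → p ∣ n → p ∣ r → z < p → p ≤ Y) :
    n = n.gcd (DY z V Y r) * (n / n.gcd (DY z V Y r)) ∧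
    (∀ p : ℕ, p.Prime → p ∣ n / n.gcd (DY z V Y r) → z < p ∧ ¬ p ∣ r) ∧
    Nat.Coprime (n.gcd (DY z V Y r)) (n / n.gcd (DY z V Y r)) ∧
    Squarefree (n / n.gcd (DY z V Y r)) := by
  unfold Rep.Bad at hg
  push Not at hg
  obtain ⟨hg1, hg2⟩ := hg
  obtain ⟨hD1, hD2, hD3, -⟩ := h3 z V Y r hr
  have hQD : Rep.Q1 z V ∣ DY z V Y r := Dvd.intro _ rfl
  set D := DY z V Y r with hDdef
  set d := n.gcd D with hd
  have hdn : d ∣ n := Nat.gcd_dvd_left _ _
  have hdD : d ∣ D := Nat.gcd_dvd_right _ _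
  have heq : d * (n / d) = n := Nat.mul_div_cancel' hdn
  have hb : ∀ p : ℕ, p.Prime → p ∣ n / d → z < p := by
    intro p hp hpm
    by_contra hz
    rw [not_lt] at hz
    set k := n.factorization p with hk
    have h1 : p ^ k ∣ n := Nat.ordProj_dvd n p
    have h2 : ¬ p ^ (k + 1) ∣ n := Nat.pow_succ_factorization_not_dvd hn.ne' hp
    have h3 : k ≤ V := by
      by_contra h
      exact hg2 p hp hz ((pow_dvd_pow p (by omega)).trans h1)
    have h4 : p ^ k ∣ d :=
      Nat.dvd_gcd h1 (((pow_dvd_pow p h3).trans (Rep.dvd_Q1 hp hz)).trans hQD)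
    apply h2
    rw [pow_succ, ← heq]
    exact mul_dvd_mul h4 hpm
  have hc : ∀ p : ℕ, p.Prime → p ∣ n / d → ¬ p ∣ d := by
    intro p hp hpm hpd
    apply hg1 p hp (hb p hp hpm)
    rw [pow_two, ← heq]
    exact mul_dvd_mul hpd hpm
  refine ⟨heq.symm, fun p hp hpm => ⟨hb p hp hpm, ?_⟩, ?_, ?_⟩
  · intro hpr
    have h1 : p ∣ D := (hD3 p hp (hb p hp hpm)).1.2
      ⟨hpr, hY p hp (hpm.trans (Nat.div_dvd_of_dvd hdn)) hpr (hb p hp hpm)⟩
    exact hc p hp hpm (Nat.dvd_gcd (hpm.trans (Nat.div_dvd_of_dvd hdn)) h1)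
  · refine Nat.coprime_of_dvd ?_
    intro p hp hpd hpm
    exact hc p hp hpm hpd
  · rw [Nat.squarefree_iff_prime_squarefree]
    intro p hp hpp
    have h1 := hb p hp ((Dvd.intro _ rfl).trans hpp)
    apply hg1 p hp h1
    rw [pow_two, ← heq]
    exact hpp.trans (Dvd.intro_left _ rfl)

/-- the pointwise bound -/
lemma bound {f : ℕ → ℂ} (hf : MB f) {r : ℕ} (χ : DirichletCharacter ℂ r) (t : ℝ)
    {z V Y n w : ℕ} (hr : 1 ≤ r) (h3 : T_XZW) (hn : 0 < n) (hg : ¬ Rep.Bad z V n)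
    (hY : ∀ p : ℕ, p.Prime → p ∣ n → p ∣ r → z < p → p ≤ Y) :
    ‖f n - Gf f χ t (DY z V Y r) z w n‖ ≤
      ∑ p ∈ (n / n.gcd (DY z V Y r)).primeFactors.filter (fun p => ¬ p ≤ w),
        ‖f p - χ (p : ZMod r) * nit t p‖ := by
  obtain ⟨heq, hbig, hcop, hsq⟩ := structure' hr h3 hn hg hY
  obtain ⟨hD1, hD2, hD3, -⟩ := h3 z V Y r hr
  unfold Gf
  rw [TPM.STRaux.xz_nat]
  set D := DY z V Y r with hDdef
  set d := n.gcd D with hd
  set m := n / d with hm
  have hd0 : 0 < d := Nat.gcd_pos_of_pos_right _ hD1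
  have hm0 : m ≠ 0 := hsq.ne_zero
  have hprod : ∏ ℓ ∈ (prs z w).filter (· ∣ n), zt f χ t ℓ =
      ∏ ℓ ∈ m.primeFactors.filter (fun p => p ≤ w), (f ℓ * conj (χ (ℓ : ZMod r) * nit t ℓ)) := by
    have hsub : m.primeFactors.filter (fun p => p ≤ w) ⊆ (prs z w).filter (· ∣ n) := by
      intro p hp
      unfold prs
      simp only [Finset.mem_filter, Finset.mem_Ioc, Nat.mem_primeFactors] at hp ⊢
      obtain ⟨⟨h3, h4, _⟩, h5⟩ := hp
      refine ⟨⟨⟨(hbig p h3 h4).1, h5⟩, h3⟩, ?_⟩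
      rw [heq]
      exact h4.mul_left _
    rw [← Finset.prod_subset hsub]
    · refine Finset.prod_congr rfl fun p hp => ?_
      simp only [Finset.mem_filter, Nat.mem_primeFactors] at hp
      obtain ⟨⟨h3, h4, _⟩, h5⟩ := hp
      unfold zt
      rw [if_neg (hbig p h3 h4).2]
    · intro p hp hpn
      unfold prs at hp
      simp only [Finset.mem_filter, Finset.mem_Ioc, Nat.mem_primeFactors] at hp hpn
      obtain ⟨⟨⟨h3, h4⟩, h5⟩, h6⟩ := hp
      have h7 : ¬ p ∣ m := fun h => hpn ⟨⟨h5, h, hm0⟩, h4⟩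
      rw [heq] at h6
      have h8 : p ∣ d := ((Nat.Prime.dvd_mul h5).1 h6).resolve_right h7
      have h9 : p ∣ r := ((hD3 p h5 h3).1.1 (h8.trans (Nat.gcd_dvd_right _ _))).1
      unfold zt
      rw [if_pos h9]
  rw [hprod]
  have e1 : f n = f d * ∏ p ∈ m.primeFactors, f p := by
    rw [← Rep.mult_sqf f hf.one hf.mul hsq, ← hf.mul _ _ hcop, ← heq]
  have e2 : nit t n = nit t d * ∏ p ∈ m.primeFactors, nit t p := by
    rw [← Rep.mult_sqf (nit t) (Rep.nit_one t) (fun a b _ => Rep.nit_mul t a b) hsq,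
      ← Rep.nit_mul, ← heq]
  have e3 : χ ((m : ℕ) : ZMod r) = ∏ p ∈ m.primeFactors, χ ((p : ℕ) : ZMod r) := by
    refine Rep.mult_sqf (fun k => χ ((k : ℕ) : ZMod r)) (by simp) (fun a b _ => ?_) hsq
    push_cast
    rw [map_mul]
  have e4 : nit t d * conj (nit t d) = 1 := by
    rw [Complex.mul_conj, Complex.normSq_eq_norm_sq, Rep.nit_norm t hd0]
    simp
  set B : ℕ → ℂ := fun p => if p ≤ w then f p else χ (p : ZMod r) * nit t p with hB
  have e5 : nit t n * (f d * conj (nit t d) * χ ((m : ℕ) : ZMod r) *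
      ∏ ℓ ∈ m.primeFactors.filter (fun p => p ≤ w), (f ℓ * conj (χ (ℓ : ZMod r) * nit t ℓ))) =
      f d * ∏ p ∈ m.primeFactors, B p := by
    rw [e2, e3, Finset.prod_filter]
    have e6 : (∏ p ∈ m.primeFactors, nit t p) * (∏ p ∈ m.primeFactors, χ ((p : ℕ) : ZMod r)) *
        (∏ ℓ ∈ m.primeFactors, if ℓ ≤ w then (f ℓ * conj (χ (ℓ : ZMod r) * nit t ℓ)) else 1) =
        ∏ p ∈ m.primeFactors, B p := by
      rw [← Finset.prod_mul_distrib, ← Finset.prod_mul_distrib]
      refine Finset.prod_congr rfl fun p hp => ?_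
      have hpp := Nat.prime_of_mem_primeFactors hp
      have hpd := Nat.dvd_of_mem_primeFactors hp
      simp only [hB]
      split_ifs with h
      · have h1 : χ (p : ZMod r) * nit t p * conj (χ (p : ZMod r) * nit t p) = 1 := by
          rw [Complex.mul_conj, Complex.normSq_eq_norm_sq, norm_mul, Rep.nit_norm t hpp.pos,
            TPM.STRaux.chi_norm_one χ hpp hr (hbig p hpp hpd).2]
          simp
        calc nit t p * χ (p : ZMod r) * (f p * conj (χ (p : ZMod r) * nit t p))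
            = f p * (χ (p : ZMod r) * nit t p * conj (χ (p : ZMod r) * nit t p)) := by ring
          _ = f p := by rw [h1, mul_one]
      · ring
    rw [← e6]
    calc _ = (nit t d * conj (nit t d)) * (f d * ((∏ p ∈ m.primeFactors, nit t p) *
          (∏ p ∈ m.primeFactors, χ ((p : ℕ) : ZMod r)) *
          (∏ ℓ ∈ m.primeFactors,
            if ℓ ≤ w then (f ℓ * conj (χ (ℓ : ZMod r) * nit t ℓ)) else 1))) := by
          ring
      _ = _ := by rw [e4, one_mul]
  rw [e5, e1, ← mul_sub, norm_mul]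
  calc ‖f d‖ * ‖∏ p ∈ m.primeFactors, f p - ∏ p ∈ m.primeFactors, B p‖
      ≤ 1 * ∑ p ∈ m.primeFactors, ‖f p - B p‖ := by
        refine mul_le_mul (hf.bd _) (Rep.norm_prod_sub_prod _ _ _ (fun p _ => hf.bd p) ?_)
          (norm_nonneg _) zero_le_one
        intro p hp
        simp only [hB]
        split_ifs with h
        · exact hf.bd p
        · exact Rep.norm_g_le χ t (Nat.prime_of_mem_primeFactors hp).pos
    _ = ∑ p ∈ m.primeFactors, (if ¬ p ≤ w then ‖f p - χ (p : ZMod r) * nit t p‖ else 0) := by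
        rw [one_mul]
        refine Finset.sum_congr rfl fun p _ => ?_
        simp only [hB]
        by_cases h : p ≤ w <;> simp [h]
    _ ≤ _ := by rw [Finset.sum_filter]

/-- few large prime divisors -/
lemma large_primes {r x : ℕ} {K : ℝ} (hr : 1 ≤ r) (hrx : r ≤ x) (hK : 1 < K)
    (S : Finset ℕ) (hS : S ⊆ r.primeFactors) (hl : ∀ ℓ ∈ S, K ≤ (ℓ : ℝ)) :
    (S.card : ℝ) * Real.log K ≤ Real.log x := by
  have h1 : K ^ S.card ≤ ∏ ℓ ∈ S, (ℓ : ℝ) := by
    calc K ^ S.card = ∏ _ℓ ∈ S, K := by rw [Finset.prod_const]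
      _ ≤ _ := Finset.prod_le_prod (fun _ _ => by linarith) hl
  have h2 : ∏ ℓ ∈ S, ℓ ≤ r := by
    refine Nat.le_of_dvd hr ?_
    exact (Finset.prod_dvd_prod_of_subset _ _ _ hS).trans (Nat.prod_primeFactors_dvd r)
  have h3 : (∏ ℓ ∈ S, (ℓ : ℝ)) ≤ x := by
    have : ((∏ ℓ ∈ S, ℓ : ℕ) : ℝ) ≤ x := by exact_mod_cast h2.trans hrx
    rwa [Nat.cast_prod] at this
  have h4 : Real.log (K ^ S.card) ≤ Real.log x :=
    Real.log_le_log (by positivity) (h1.trans h3)
  rwa [Real.log_pow] at h4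

end STW_

open STW_ Rep in
/-- **TPX-STW**. -/
theorem prove_STW (h1 : T_MERT) (h2 : T_XZ) (h3 : T_XZW) : T_STW := by
  classical
  obtain ⟨C1, hC1, hM⟩ := h1
  intro ε hε
  refine ⟨⌈16 / ε⌉₊ + 1, fun z hz2 => ?_⟩
  have hz3 : 1 ≤ z := by omega
  have hz4 : 16 / ε ≤ z := by
    calc 16 / ε ≤ ⌈16 / ε⌉₊ := Nat.le_ceil _
      _ ≤ z := by exact_mod_cast (by omega : ⌈16 / ε⌉₊ ≤ z)
  have hz0 : (0 : ℝ) < z := by exact_mod_cast hz3
  have hz5 : 1 / (z : ℝ) ≤ ε / 16 := by
    rw [div_le_iff₀ hε] at hz4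
    rw [div_le_div_iff₀ hz0 (by norm_num)]
    linarith
  obtain ⟨e, he⟩ : ∃ e : ℕ, (z : ℝ) / 2 ^ (e + 1) ≤ ε / 16 := by
    obtain ⟨e, he⟩ := pow_unbounded_of_one_lt (16 * (z : ℝ) / ε) (one_lt_two (α := ℝ))
    refine ⟨e, ?_⟩
    rw [div_lt_iff₀ hε] at he
    rw [div_le_div_iff₀ (by positivity) (by norm_num), pow_succ]
    nlinarith [pow_pos (zero_lt_two (α := ℝ)) e]
  refine ⟨e, max 1 ((24 * C1 / ε ^ 2) ^ 2), le_max_left _ _, ?_⟩
  intro A κ hA hκ
  have hA1 : 1 ≤ A := (le_max_left _ _).trans hA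
  have hA2 : (24 * C1 / ε ^ 2) ^ 2 ≤ A := (le_max_right _ _).trans hA
  have hA3 : 24 * C1 / ε ^ 2 ≤ √A := Real.le_sqrt_of_sq_le hA2
  have hlim : ∀ᶠ x : ℕ in atTop, max 1 (16 / (κ * ε)) ≤ Real.log (κ * Real.log x) := by
    have h1 : Tendsto (fun x : ℕ => Real.log (κ * Real.log x)) atTop atTop :=
      Real.tendsto_log_atTop.comp ((Real.tendsto_log_atTop.comp
        tendsto_natCast_atTop_atTop).const_mul_atTop hκ)
    exact h1.eventually_ge_atTop _
  obtain ⟨X0, hX0⟩ := eventually_atTop.1 hlim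
  refine ⟨max X0 1, ?_⟩
  intro x f r χ t hx' hf hr hrx hD
  have hx : 1 ≤ x := (le_max_right _ _).trans hx'
  have hxL := hX0 x ((le_max_left _ _).trans hx')
  set K := κ * Real.log x with hK
  have hK1 : 1 ≤ Real.log K := (le_max_left _ _).trans hxL
  have hK2 : 16 / (κ * ε) ≤ Real.log K := (le_max_right _ _).trans hxL
  have hlx : 0 ≤ Real.log x := Real.log_natCast_nonneg x
  have hK0 : 0 ≤ K := mul_nonneg hκ.le hlx
  have hK3 : 1 < K := by
    by_contra h
    have := Real.log_nonpos hK0 (not_lt.1 h)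
    linarith
  set Y := ⌊κ * Real.log x⌋₊ with hYdef
  obtain ⟨hD1, hD2, hD3, -⟩ := h3 z e Y r hr
  set w := ⌊(x : ℝ) ^ (1 / A)⌋₊ with hw
  set P : Finset ℕ := (Finset.Iic ⌊(x : ℝ)⌋₊).filter
    (fun p : ℕ => p.Prime ∧ (x : ℝ) ^ (1 / A) < p) with hP
  set S : Finset ℕ := r.primeFactors.filter (fun ℓ => Y < ℓ) with hSd
  have hSl : ∀ ℓ ∈ S, K ≤ (ℓ : ℝ) := by
    intro ℓ hℓ
    have h1 : Y < ℓ := (Finset.mem_filter.1 hℓ).2
    exact ((Nat.floor_lt hK0).1 h1).le
  have hSc := large_primes hr hrx hK3 S (Finset.filter_subset _ _) hSl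
  have hSs : ∑ ℓ ∈ S, (x : ℝ) / ℓ ≤ x * (ε / 16) := by
    have h1 : ∑ ℓ ∈ S, (x : ℝ) / ℓ ≤ ∑ _ℓ ∈ S, (x : ℝ) / K := by
      refine Finset.sum_le_sum fun ℓ hℓ => ?_
      exact div_le_div_of_nonneg_left (Nat.cast_nonneg x) (by linarith) (hSl ℓ hℓ)
    refine h1.trans ?_
    rw [Finset.sum_const, nsmul_eq_mul]
    have h2 : (S.card : ℝ) / K ≤ ε / 16 := by
      rw [div_le_iff₀ (by positivity)] at hK2
      rw [div_le_div_iff₀ (by linarith) (by norm_num)]
      have h3 : (S.card : ℝ) * 16 ≤ (S.card : ℝ) * (Real.log K * (κ * ε)) :=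
        mul_le_mul_of_nonneg_left hK2 (Nat.cast_nonneg _)
      have h4 : (S.card : ℝ) * Real.log K * (κ * ε) ≤ Real.log x * (κ * ε) :=
        mul_le_mul_of_nonneg_right hSc (by positivity)
      have h5 : Real.log x * (κ * ε) = ε * K := by rw [hK]; ring
      linarith
    calc (S.card : ℝ) * ((x : ℝ) / K) = x * ((S.card : ℝ) / K) := by ring
      _ ≤ _ := mul_le_mul_of_nonneg_left h2 (Nat.cast_nonneg x)
  have hS := sum_large hC1 hM x hx hA1
  have hA0 : 0 < A := by linarith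
  have hsA : 0 < √A := Real.sqrt_pos.2 hA0
  have hmain : ∑ p ∈ P, ‖f p - χ (p : ZMod r) * nit t p‖ / p ≤ ε / 2 := by
    refine sum_dist hf χ t P (fun p hp => (Finset.mem_filter.1 hp).2.1) (by positivity) hS hD ?_
    have h1 : A = √A * √A := (Real.mul_self_sqrt hA0.le).symm
    have h2 : 3 * √A * C1 * (2 * (1 / A)) = 6 * C1 / √A := by
      rw [eq_div_iff hsA.ne']
      calc _ = 6 * C1 * (√A * √A) / A := by ring
        _ = _ := by rw [← h1]; field_simp
    rw [h2, div_le_iff₀ hsA]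
    rw [div_le_iff₀ (by positivity)] at hA3
    nlinarith
  set a : ℕ → ℝ := fun p => ‖f p - χ (p : ZMod r) * nit t p‖ with ha
  have hPn : ∀ n : ℕ, 0 ≤ ∑ p ∈ P, if p ∣ n then a p else 0 := fun n =>
    Finset.sum_nonneg fun p _ => by
      split_ifs
      · exact norm_nonneg _
      · exact le_rfl
  have hSn : ∀ n : ℕ, 0 ≤ ∑ ℓ ∈ S, if ℓ ∣ n then (2 : ℝ) else 0 := fun n =>
    Finset.sum_nonneg fun p _ => by
      split_ifs
      · norm_num
      · exact le_rfl
  have htriv : ∀ n : ℕ, ‖f n - Gf f χ t (DY z e Y r) z w n‖ ≤ 2 := by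
    intro n
    have h3 := (h2.2 r χ f t (DY z e Y r) hf hD1).2.2.1 z w n
    have h4 := hf.bd n
    have h5 := norm_sub_le (f n) (Gf f χ t (DY z e Y r) z w n)
    linarith
  calc _ ≤ ∑ n ∈ Finset.Icc 1 x, (((if Bad z e n then 2 else 0) +
        ∑ ℓ ∈ S, if ℓ ∣ n then (2 : ℝ) else 0) + ∑ p ∈ P, if p ∣ n then a p else 0) := by
        refine Finset.sum_le_sum fun n hn => ?_
        have hn1 : 0 < n := (Finset.mem_Icc.1 hn).1
        by_cases hb : Bad z e n
        · rw [if_pos hb]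
          have h1 := htriv n
          have h2 := hPn n
          have h3 := hSn n
          linarith
        · rw [if_neg hb, zero_add]
          by_cases hex : ∃ ℓ ∈ S, ℓ ∣ n
          · obtain ⟨ℓ, hℓ, hℓn⟩ := hex
            have h1 : (2 : ℝ) ≤ ∑ ℓ ∈ S, if ℓ ∣ n then (2 : ℝ) else 0 := by
              have h3 := Finset.single_le_sum (f := fun ℓ => if ℓ ∣ n then (2 : ℝ) else 0)
                (fun i _ => by
                  split_ifs
                  · norm_num
                  · exact le_rfl) hℓ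
              simpa [hℓn] using h3
            have h2 := htriv n
            have h3 := hPn n
            linarith
          · push Not at hex
            have h1 := STW_.bound hf χ t (w := w) hr h3 hn1 hb (Y := Y) (by
              intro p hp hpn hpr _
              by_contra hcon
              refine hex p ?_ hpn
              rw [hSd, Finset.mem_filter]
              exact ⟨Nat.mem_primeFactors.2 ⟨hp, hpr, by omega⟩, not_le.1 hcon⟩)
            have h1' : ‖f n - Gf f χ t (DY z e Y r) z w n‖ ≤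
                ∑ p ∈ P, if p ∣ n then a p else 0 := by
              refine h1.trans ?_
              rw [← Finset.sum_filter]
              refine Finset.sum_le_sum_of_subset_of_nonneg ?_ fun _ _ _ => norm_nonneg _
              intro p hp
              rw [Finset.mem_filter] at hp
              obtain ⟨hp1, hp2⟩ := hp
              have hpp := Nat.prime_of_mem_primeFactors hp1
              have hpd := Nat.dvd_of_mem_primeFactors hp1
              have hpn : p ∣ n := hpd.trans (Nat.div_dvd_of_dvd (Nat.gcd_dvd_left _ _))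
              rw [Finset.mem_filter, hP, Finset.mem_filter, Finset.mem_Iic, Nat.floor_natCast]
              refine ⟨⟨?_, hpp, ?_⟩, hpn⟩
              · exact (Nat.le_of_dvd hn1 hpn).trans (Finset.mem_Icc.1 hn).2
              · rw [← Nat.floor_lt (by positivity)]
                exact not_le.1 hp2
            have h2 := hSn n
            linarith
    _ = ((Finset.Icc 1 x).filter (Bad z e)).card * 2 +
        ∑ ℓ ∈ S, 2 * (((Finset.Icc 1 x).filter (ℓ ∣ ·)).card : ℝ) +
        ∑ p ∈ P, a p * (((Finset.Icc 1 x).filter (p ∣ ·)).card : ℝ) := by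
        rw [Finset.sum_add_distrib, Finset.sum_add_distrib, ← Finset.sum_filter,
          Finset.sum_const, nsmul_eq_mul, Finset.sum_comm (s := Finset.Icc 1 x) (t := S),
          Finset.sum_comm (s := Finset.Icc 1 x) (t := P)]
        congr 1
        · congr 1
          refine Finset.sum_congr rfl fun p _ => ?_
          rw [← Finset.sum_filter, Finset.sum_const, nsmul_eq_mul, mul_comm]
        · refine Finset.sum_congr rfl fun p _ => ?_
          rw [← Finset.sum_filter, Finset.sum_const, nsmul_eq_mul, mul_comm]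
    _ ≤ (x / z + x * (z / 2 ^ (e + 1))) * 2 + ∑ ℓ ∈ S, 2 * ((x : ℝ) / ℓ) +
        ∑ p ∈ P, a p * ((x : ℝ) / p) := by
        refine add_le_add (add_le_add ?_ (Finset.sum_le_sum fun ℓ hℓ => ?_))
          (Finset.sum_le_sum fun p hp => ?_)
        · exact mul_le_mul_of_nonneg_right (card_bad x z e hz3) (by norm_num)
        · have hpp : ℓ.Prime := Nat.prime_of_mem_primeFactors (Finset.mem_filter.1 hℓ).1
          exact mul_le_mul_of_nonneg_left (card_dvd_le x ℓ hpp.pos) (by norm_num)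
        · have hpp : p.Prime := (Finset.mem_filter.1 hp).2.1
          exact mul_le_mul_of_nonneg_left (card_dvd_le x p hpp.pos) (norm_nonneg _)
    _ = (x * (1 / z) + x * (z / 2 ^ (e + 1))) * 2 + 2 * ∑ ℓ ∈ S, (x : ℝ) / ℓ +
        x * ∑ p ∈ P, a p / p := by
        rw [Finset.mul_sum, Finset.mul_sum]
        congr 1
        · congr 1
          ring
        · exact Finset.sum_congr rfl fun p _ => by ring
    _ ≤ (x * (ε / 16) + x * (ε / 16)) * 2 + 2 * (x * (ε / 16)) + x * (ε / 2) := by gcongr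
    _ ≤ ε * x := by
        have : 0 ≤ ε * x := by positivity
        linarith

end Pool.Agent.TPX
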