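import Pool.Agent.TPX.Targets
import Pool.Agent.TPM.XZ

set_option autoImplicit false

/-! TPX-XZW: basic facts on `DY`. -/

namespace Pool.Agent.TPX

open Finset Filter Pool.Agent.Ell Pool.Agent.TPM
open scoped BigOperators ComplexConjugate

theorem prove_XZW : T_XZW := by
  intro z V Y r hr
  set S := r.primeFactors.filter (fun ℓ => z < ℓ ∧ ℓ ≤ Y) with hS
  have hQ := Rep.Q1_pos z V
  have hsubr : (∏ ℓ ∈ S, ℓ) ∣ r :=
    (Finset.prod_dvd_prod_of_subset _ _ _ (Finset.filter_subset _ _)).trans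
      (Nat.prod_primeFactors_dvd r)
  have hL : 0 < ∏ ℓ ∈ S, ℓ := Nat.pos_of_dvd_of_pos hsubr hr
  have hprim : (∏ ℓ ∈ S, ℓ) ∣ primorial Y := by
    unfold primorial
    refine Finset.prod_dvd_prod_of_subset _ _ _ ?_
    intro ℓ hℓ
    rw [hS, Finset.mem_filter] at hℓ
    rw [Finset.mem_filter, Finset.mem_range]
    exact ⟨by omega, Nat.prime_of_mem_primeFactors hℓ.1⟩
  have hL2 : ∏ ℓ ∈ S, ℓ ≤ 4 ^ Y :=
    (Nat.le_of_dvd (primorial_pos Y) hprim).trans (primorial_le_four_pow Y)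
  refine ⟨Nat.mul_pos hQ hL, Nat.mul_le_mul_left _ hL2, ?_, ?_⟩
  · intro ℓ hℓ hz
    have hQℓ : ¬ ℓ ∣ Rep.Q1 z V := fun h => absurd (Rep.le_of_dvd_Q1 hℓ h) (not_le.2 hz)
    have hmem : ℓ ∣ ∏ q ∈ S, q → ℓ ∈ S := by
      intro h1
      rw [(Nat.Prime.prime hℓ).dvd_finsetProd_iff] at h1
      obtain ⟨q, hq, hlq⟩ := h1
      have hqp : q.Prime := Nat.prime_of_mem_primeFactors (Finset.mem_filter.1 hq).1
      rwa [(Nat.prime_dvd_prime_iff_eq hℓ hqp).1 hlq]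
    refine ⟨⟨?_, ?_⟩, ?_⟩
    · intro h
      rcases (Nat.Prime.dvd_mul hℓ).1 h with h1 | h1
      · exact absurd h1 hQℓ
      · have h2 := hmem h1
        rw [hS, Finset.mem_filter] at h2
        exact ⟨Nat.dvd_of_mem_primeFactors h2.1, h2.2.2⟩
    · rintro ⟨h1, h2⟩
      refine Dvd.dvd.mul_left ?_ _
      exact Finset.dvd_prod_of_mem (fun ℓ => ℓ)
        (Finset.mem_filter.2 ⟨Nat.mem_primeFactors.2 ⟨hℓ, h1, by omega⟩, hz, h2⟩)
    · intro h
      have hc : (ℓ ^ 2).Coprime (Rep.Q1 z V) :=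
        Nat.Coprime.pow_left _ ((Nat.Prime.coprime_iff_not_dvd hℓ).2 hQℓ)
      have h1 : ℓ ^ 2 ∣ ∏ q ∈ S, q := hc.dvd_of_dvd_mul_left h
      have h2 : ℓ ∈ S := hmem ((dvd_pow_self ℓ two_ne_zero).trans h1)
      rw [← Finset.mul_prod_erase S (fun q => q) h2, pow_two] at h1
      have h3 : ℓ ∣ ∏ q ∈ S.erase ℓ, q := Nat.dvd_of_mul_dvd_mul_left hℓ.pos h1
      rw [(Nat.Prime.prime hℓ).dvd_finsetProd_iff] at h3
      obtain ⟨q, hq, hlq⟩ := h3
      rw [Finset.mem_erase] at hq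
      have hqp : q.Prime := Nat.prime_of_mem_primeFactors (Finset.mem_filter.1 hq.2).1
      exact hq.1 ((Nat.prime_dvd_prime_iff_eq hℓ hqp).1 hlq).symm
  · intro h
    unfold DY DD
    have e1 : r.primeFactors.filter (fun ℓ => z < ℓ ∧ ℓ ≤ Y) = ∅ := by
      rw [Finset.filter_eq_empty_iff]
      intro ℓ hℓ h1
      have := h ℓ (Nat.prime_of_mem_primeFactors hℓ) (Nat.dvd_of_mem_primeFactors hℓ)
      omega
    have e2 : r.primeFactors.filter (fun ℓ => z < ℓ) = ∅ := by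
      rw [Finset.filter_eq_empty_iff]
      intro ℓ hℓ h1
      have := h ℓ (Nat.prime_of_mem_primeFactors hℓ) (Nat.dvd_of_mem_primeFactors hℓ)
      omega
    rw [e1, e2]

end Pool.Agent.TPX
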