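import Pool.Agent.TPX.Targets
import Pool.Agent.Ell.KeyE

set_option autoImplicit false

/-! TPX-CRW: the cross sums up to any `M ≤ x` from the block estimate, wide moduli. -/

namespace Pool.Agent.TPX

open Finset Filter Pool.Agent.Ell Pool.Agent.TPM
open scoped BigOperators ComplexConjugate

namespace CRW_

/-- eventually `x ^ (1 - θ) ≤ (η x) ^ (1 - θ / 2)` -/
theorem ev_pow (η θ : ℝ) (hη : 0 < η) (hθ : 0 < θ) :
    ∀ᶠ x : ℕ in atTop, (x : ℝ) ^ (1 - θ) ≤ (η * x) ^ (1 - θ / 2) := by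
  have h1 : Tendsto (fun x : ℕ => ((x : ℝ)) ^ (θ / 2)) atTop atTop :=
    (tendsto_rpow_atTop (by positivity)).comp tendsto_natCast_atTop_atTop
  filter_upwards [h1.eventually_ge_atTop (1 / η ^ (1 - θ / 2)), eventually_ge_atTop 1]
    with x hx hx1
  have hx0 : (0 : ℝ) < x := by exact_mod_cast hx1
  have hp : 0 < η ^ (1 - θ / 2) := Real.rpow_pos_of_pos hη _
  rw [Real.mul_rpow hη.le hx0.le]
  have e : (x : ℝ) ^ (1 - θ / 2) = (x : ℝ) ^ (θ / 2) * (x : ℝ) ^ (1 - θ) := by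
    rw [← Real.rpow_add hx0]
    congr 1
    ring
  rw [e, ← mul_assoc]
  rw [div_le_iff₀ hp] at hx
  have h2 : 0 ≤ (x : ℝ) ^ (1 - θ) := by positivity
  nlinarith

/-- comparison of the logarithms -/
theorem log_le (x N : ℕ) (κ Y : ℝ) (hx : 1 ≤ x) (hκ : 0 < κ)
    (hY : Y ≤ κ / 2 * Real.log x) (hN : (x : ℝ) ^ (1 / 2 : ℝ) ≤ N) : Y ≤ κ * Real.log N := by
  have hx0 : (0 : ℝ) < x := by exact_mod_cast hx
  have h1 : Real.log ((x : ℝ) ^ (1 / 2 : ℝ)) ≤ Real.log N :=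
    Real.log_le_log (by positivity) hN
  rw [Real.log_rpow hx0] at h1
  nlinarith

end CRW_

theorem prove_CRW (h1 : T_BLW) (h2 : T_XZ) (h3 : T_XZW) : T_CRW := by
  intro a p p' C η θ ha hp hp' hpp hpa hpa' hC hη hθ hθ1
  obtain ⟨s, κ, B, z0, hs, hκ, hB, hBLW⟩ :=
    h1 a p p' (2 * C) (η / 64) (θ / 2) ha hp hp' hpp hpa hpa' (by positivity) (by positivity)
      (by positivity) (by linarith)
  refine ⟨B, κ / 2, z0, hB, by positivity, fun z V hz => ?_⟩
  obtain ⟨R, N0, hBLW⟩ := hBLW z V hz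
  refine ⟨R, 2 * s, by linarith, fun A hA => ?_⟩
  obtain ⟨X, hX⟩ := eventually_atTop.mp
    (((KeyE.large_x (η / 64) C (by positivity) hC (max N0 1)).and
      ((tendsto_natCast_atTop_atTop (R := ℝ)).eventually_ge_atTop (64 / η))).and
      (CRW_.ev_pow (η / 64) θ (by positivity) hθ))
  refine ⟨X, fun x r Y ψ f t hx hr hrx hY hψ hf ht hRB M hM => ?_⟩
  obtain ⟨⟨⟨hx1, hx2⟩, hx64⟩, hxp⟩ := hX x hx
  have hwp := KeyE.w_pow x A s hx1 hs hA
  set w := ⌊(x : ℝ) ^ (1 / A)⌋₊ with hw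
  set N2 := ⌈η / 64 * x⌉₊ with hN2
  have hN2ge : η / 64 * x ≤ N2 := Nat.le_ceil _
  have hN21 : 1 ≤ N2 := (le_max_right _ _).trans (hx2 N2 hN2ge).1
  have hN2le : (N2 : ℝ) ≤ η / 32 * x := by
    have h3 : (N2 : ℝ) < η / 64 * x + 1 := Nat.ceil_lt_add_one (by positivity)
    have h4 : 1 ≤ η / 64 * x := by
      rw [div_le_iff₀ hη] at hx64
      linarith
    linarith
  have hD : 1 ≤ DY z V Y r := (h3 z V Y r hr).1
  have hG : ∀ n, ‖Gf f ψ t (DY z V Y r) z w n‖ ≤ 1 := fun n =>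
    (h2.2 r ψ f t (DY z V Y r) hf hD).2.2.1 z w n
  have key := KeyC.dyadic (fun m => Gf f ψ t (DY z V Y r) z w (sh a (p * m)) *
      conj (Gf f ψ t (DY z V Y r) z w (sh a (p' * m)))) 1 (η / 64) N2 x hN21 (by positivity)
    ?_ ?_ M hM
  · have e : Finset.Icc 1 M = Finset.Ioc 0 M := by
      ext m; simp [Finset.mem_Icc, Finset.mem_Ioc, Nat.succ_le_iff]
    rw [e]
    refine key.trans ?_
    have hM' : (M : ℝ) ≤ x := by exact_mod_cast hM
    have h5 : 3 * (η / 64) * M ≤ 3 * (η / 64) * x :=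
      mul_le_mul_of_nonneg_left hM' (by positivity)
    have h6 : 0 ≤ η * x := by positivity
    linarith
  · intro m _
    rw [norm_mul, RCLike.norm_conj]
    exact mul_le_one₀ (hG _) (norm_nonneg _) (hG _)
  · intro N hN2N hNx x' y' hNx' hx'y' hy'
    have hNr : η / 64 * x ≤ N := hN2ge.trans (by exact_mod_cast hN2N)
    obtain ⟨m1, m2, m3⟩ := hx2 N hNr
    have hRB' : R < r ∨ B * N < |t| := by
      rcases hRB with h | h
      · exact Or.inl h
      · refine Or.inr (lt_of_le_of_lt ?_ h)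
        exact mul_le_mul_of_nonneg_left (by exact_mod_cast hNx) hB.le
    have hr' : (r : ℝ) ≤ (N : ℝ) ^ (1 - θ / 2) := by
      refine hrx.trans (hxp.trans ?_)
      exact Real.rpow_le_rpow (by positivity) hNr (by linarith)
    exact hBLW N w r Y ψ f t ((le_max_left _ _).trans m1) (hwp.trans m3) hr hr'
      (CRW_.log_le x N κ Y hx1 hκ hY m3) hψ hf (ht.trans m2) hRB' x' y' hNx' hx'y' hy'

end Pool.Agent.TPX
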