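import Pool.Agent.TPX.Targets
import Pool.Agent.EllTw.Final

set_option autoImplicit false

/-! TPX-XFI: the final exceptional twist theorem for moduli up to `x ^ (1/2 - θ)`. -/

namespace Pool.Agent.TPX

open Finset Filter Pool.Agent.Ell Pool.Agent.Ell.KeyA Pool.Agent.EllTw Pool.Agent.EllTw.FIN_
open scoped BigOperators ComplexConjugate

namespace XFI_

/-- comparison of the powers of `x` and of its integer part -/
theorem pow_cmp {x N e θ : ℝ} (hθ : 0 < θ) (he : e ≤ 1) (hN : 0 < N) (hNx : N ≤ x)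
    (hx2 : x ≤ 2 * N) (hx : 2 ^ (2 / θ) ≤ x) : x ^ (e - θ / 2) ≤ N ^ e := by
  have hx0 : 0 < x := lt_of_lt_of_le hN hNx
  have h1 : x ^ e ≤ 2 * N ^ e := by
    have hNe : 0 < N ^ e := Real.rpow_pos_of_pos hN _
    by_cases h0 : 0 ≤ e
    · calc x ^ e ≤ (2 * N) ^ e := Real.rpow_le_rpow hx0.le hx2 h0
        _ = 2 ^ e * N ^ e := Real.mul_rpow (by norm_num) hN.le
        _ ≤ 2 * N ^ e := by
            refine mul_le_mul_of_nonneg_right ?_ hNe.le
            calc (2 : ℝ) ^ e ≤ 2 ^ (1 : ℝ) :=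
                  Real.rpow_le_rpow_of_exponent_le (by norm_num) he
              _ = 2 := Real.rpow_one 2
    · have h2 : x ^ e ≤ N ^ e := Real.rpow_le_rpow_of_nonpos hN hNx (by linarith)
      linarith
  have h2 : 2 ≤ x ^ (θ / 2) := by
    have h3 : ((2 : ℝ) ^ (2 / θ)) ^ (θ / 2) = 2 := by
      rw [← Real.rpow_mul (by norm_num)]
      have : 2 / θ * (θ / 2) = 1 := by field_simp
      rw [this, Real.rpow_one]
    calc (2 : ℝ) = ((2 : ℝ) ^ (2 / θ)) ^ (θ / 2) := h3.symm
      _ ≤ x ^ (θ / 2) := Real.rpow_le_rpow (by positivity) hx (by positivity)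
  have h4 : x ^ e = x ^ (e - θ / 2) * x ^ (θ / 2) := by
    rw [← Real.rpow_add hx0]
    congr 1
    ring
  have h5 : 0 < x ^ (e - θ / 2) := Real.rpow_pos_of_pos hx0 _
  rw [h4] at h1
  nlinarith

end XFI_

open Pool.Agent.EllTw.Final_ in
/-- TPX-XFI: the final exceptional twist theorem -/
theorem prove_XFI (h1 : T_XTW) : T_XFI := by
  classical
  intro k h hh b C ε θ hε hθ
  set a : Fin k → ℤ := fun j => (h j.succ : ℤ) - h 0 with ha
  have hai : Function.Injective a := by
    intro i j hij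
    have h1 : (h i.succ : ℤ) = h j.succ := by
      simp only [ha] at hij
      linarith
    have h2 : h i.succ = h j.succ := by exact_mod_cast h1
    exact Fin.succ_injective _ (hh h2)
  have ha0 : ∀ j, a j ≠ 0 := by
    intro j hj
    simp only [ha] at hj
    have h1 : (h j.succ : ℤ) = h 0 := by linarith
    have h2 : h j.succ = h 0 := by exact_mod_cast h1
    exact Fin.succ_ne_zero j (hh h2)
  set C1 := max C 1 with hC1
  have hC1p : 0 < C1 := lt_of_lt_of_le one_pos (le_max_right _ _)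
  obtain ⟨J, X0, B, HT⟩ := h1 k a b (2 * C1) (ε / 2) (θ / 2) hai ha0 (by positivity)
    (by positivity) (by positivity)
  refine ⟨J, max B 0, max (max (X0 + 4) (4 * h 0 / ε + 4)) (2 ^ (2 / θ)), ?_⟩
  intro x hx D hD
  have hx1 : (X0 : ℝ) + 4 ≤ x := (le_max_left _ _).trans ((le_max_left _ _).trans hx)
  have hx2 : 4 * (h 0 : ℝ) / ε + 4 ≤ x := (le_max_right _ _).trans ((le_max_left _ _).trans hx)
  have hx3 : (2 : ℝ) ^ (2 / θ) ≤ x := (le_max_right _ _).trans hx
  have hX0 : (0 : ℝ) ≤ X0 := by positivity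
  have hx4 : 4 ≤ x := by linarith
  have hx0 : 0 < x := by linarith
  set N := ⌊x⌋₊ with hN
  have hNx : (N : ℝ) ≤ x := Nat.floor_le hx0.le
  have hxN : x < N + 1 := Nat.lt_floor_add_one x
  have hXN : X0 ≤ N := by
    have : (X0 : ℝ) ≤ N := by linarith
    exact_mod_cast this
  have hN3 : (3 : ℝ) ≤ N := by linarith
  have hxN2 : x ≤ (N : ℝ) ^ (2 : ℝ) := by
    rw [Real.rpow_two]
    nlinarith
  have hpow : ∀ c' : ℝ, 0 < c' → x ^ c' ≤ (N : ℝ) ^ (2 * c') := by
    intro c' hc'
    rw [Real.rpow_mul (by positivity)]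
    exact Real.rpow_le_rpow hx0.le hxN2 hc'.le
  set D' : ℕ → ℂ := fun m => D (m - h 0) with hD'
  let Bad : Pt k → Prop := fun e => 1 ≤ e.q ∧ (e.q : ℝ) ≤ (N : ℝ) ^ (1 / 2 - θ / 2) ∧
    (∀ j, |e.t j| ≤ (N : ℝ) ^ (2 * C1)) ∧
    ∃ f : ℕ → ℂ, MB f ∧ ε / 2 * N < ‖∑ m ∈ Finset.Icc 1 N, f m * (D' m * W a b e m)‖
  obtain ⟨S, hS1, hS2, hS3⟩ := exists_max a (max B 0) (le_max_right _ _) N J Bad (by
    intro S hS hsep
    refine HT N hXN D' (fun n => hD _) S hS ?_
    intro e he e' he' hne hsame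
    obtain ⟨l, hl, hl2⟩ := hsep e he e' he' hne hsame
    exact ⟨l, hl, lt_of_le_of_lt (mul_le_mul_of_nonneg_right (le_max_left _ _) (by positivity))
      hl2⟩)
  refine ⟨S.image (fun e => ⟨e.q, (e.χ, e.t)⟩), Finset.card_image_le.trans hS1, ?_, ?_⟩
  · intro e he
    obtain ⟨e', he', rfl⟩ := Finset.mem_image.mp he
    exact (hS2 e' he').1
  intro q χ t hq hqx ht
  set e : Pt k := ⟨q, χ, t⟩ with hedef
  by_cases hbad : Bad e
  · left
    obtain ⟨e', he', hsame, hl⟩ := hS3 e hbad
    refine ⟨⟨e'.q, (e'.χ, e'.t)⟩, Finset.mem_image.mpr ⟨e', he', rfl⟩, hsame, ?_⟩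
    intro l hl1
    have h1 := hl l hl1
    have h2 : tau a (fun j => e.t j - e'.t j) l =
        ∑ j, (t j - e'.t j) * ((h j.succ : ℝ) - h 0) ^ l := by
      unfold tau
      refine Finset.sum_congr rfl (fun j _ => ?_)
      simp only [ha, hedef]
      push_cast
      ring
    rw [h2] at h1
    refine h1.trans ?_
    refine mul_le_mul_of_nonneg_left ?_ (le_max_right _ _)
    exact pow_le_pow_left₀ (by positivity) hNx l
  · right
    intro f hf hfb
    have hfMB : MB (fun n => f n) := ⟨hf.map_one, fun m n hmn => hf.map_mul_of_coprime hmn, hfb⟩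
    have hsmall : ‖∑ m ∈ Finset.Icc 1 N, f m * (D' m * W a b e m)‖ ≤ ε / 2 * N := by
      by_contra hcon
      push Not at hcon
      refine hbad ⟨hq, ?_, ?_, fun n => f n, hfMB, hcon⟩
      · have h3 := XFI_.pow_cmp (x := x) (N := (N : ℝ)) (e := 1 / 2 - θ / 2) hθ (by linarith)
          (by linarith) hNx (by linarith) hx3
        refine hqx.trans (le_trans (le_of_eq ?_) h3)
        congr 1
        ring
      · intro j
        refine (ht j).trans (le_trans ?_ (hpow C1 hC1p))
        exact Real.rpow_le_rpow_of_exponent_le (by linarith) (le_max_left _ _)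
    have hsh := shift_sum (fun m => f m * (D' m * W a b e m)) (by
      intro n
      rw [norm_mul, norm_mul]
      exact mul_le_one₀ (hfb n) (by positivity)
        (mul_le_one₀ (hD _) (norm_nonneg _) (norm_W a b e n))) (h 0) N
    have hsum : ∑ n ∈ Finset.Icc 1 N, f (n + h 0) * (D' (n + h 0) * W a b e (n + h 0)) =
        ∑ n ∈ Finset.Icc 1 N, D n * f (n + h 0) * χ ((n + h b.succ : ℕ) : ZMod q) *
            ∏ j, ((n + h j.succ : ℕ) : ℂ) ^ ((t j : ℂ) * Complex.I) := by
      refine Finset.sum_congr rfl (fun n _ => ?_)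
      have e1 : D' (n + h 0) = D n := by simp [hD']
      have e2 : ch χ (a b) (n + h 0) = χ ((n + h b.succ : ℕ) : ZMod q) := by
        unfold ch
        congr 1
        simp only [ha]
        push_cast
        ring
      have e3 : ph a t (n + h 0) = ∏ j, ((n + h j.succ : ℕ) : ℂ) ^ ((t j : ℂ) * Complex.I) := by
        unfold ph nit
        refine Finset.prod_congr rfl (fun j _ => ?_)
        congr 2
        unfold sh
        simp only [ha]
        push_cast
        have : ((n : ℤ) + h 0 + ((h j.succ : ℤ) - h 0)) = ((n + h j.succ : ℕ) : ℤ) := by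
          push_cast
          ring
        rw [this, Int.toNat_natCast]
      rw [e1]
      change f (n + h 0) * (D n * (ch χ (a b) (n + h 0) * ph a t (n + h 0))) = _
      rw [e2, e3]
      ring
    rw [← hsum, div_le_iff₀ hx0]
    refine hsh.trans ?_
    have h1 : 4 * (h 0 : ℝ) / ε ≤ x - 4 := by linarith
    rw [div_le_iff₀ hε] at h1
    have h2 : ε / 2 * N ≤ ε / 2 * x := mul_le_mul_of_nonneg_left hNx (by positivity)
    nlinarith

end Pool.Agent.TPX
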