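import Pool.Agent.TPX.Targets
import Pool.Agent.TPM.LC

set_option autoImplicit false

/-! TPX-LCW: large conductor or large `t`, wide moduli -/

namespace Pool.Agent.TPX

open Finset Filter Pool.Agent.Ell Pool.Agent.TPM
open scoped BigOperators ComplexConjugate Topology

namespace LCW_

/-- the bound for the cross sums at `x` -/
def CB (a : ℤ) (C δ θ B κ : ℝ) (z V R : ℕ) (A : ℝ) (x p p' : ℕ) : Prop :=
  ∀ (r Y : ℕ) (ψ : DirichletCharacter ℂ r) (f : ℕ → ℂ) (t : ℝ), 1 ≤ r →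
  (r : ℝ) ≤ (x : ℝ) ^ (1 - θ) → (Y : ℝ) ≤ κ * Real.log x → ψ.IsPrimitive → MB f →
  |t| ≤ (x : ℝ) ^ C → (R < r ∨ B * x < |t|) → ∀ M : ℕ, M ≤ x →
  ‖∑ m ∈ Finset.Icc 1 M, Gf f ψ t (DY z V Y r) z ⌊(x : ℝ) ^ (1 / A)⌋₊ (sh a (p * m)) *
    conj (Gf f ψ t (DY z V Y r) z ⌊(x : ℝ) ^ (1 / A)⌋₊ (sh a (p' * m)))‖ ≤ δ * x

theorem crs_ev (h2 : T_CRW) (a : ℤ) (p p' : ℕ) (C δ θ : ℝ) (ha : a ≠ 0) (hp : p.Prime)
    (hp' : p'.Prime) (hne : p ≠ p') (hap : |a| < (p : ℤ)) (hap' : |a| < (p' : ℤ)) (hC : 0 < C)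
    (hδ : 0 < δ) (hθ : 0 < θ) (hθ1 : θ < 1) :
    ∀ᶠ B : ℝ in atTop, ∀ᶠ κ : ℝ in 𝓝[>] 0, ∀ᶠ z : ℕ in atTop, ∀ V : ℕ, ∀ᶠ R : ℕ in atTop,
      ∀ᶠ A : ℝ in atTop, ∀ᶠ x : ℕ in atTop, CB a C δ θ B κ z V R A x p p' := by
  obtain ⟨B₀, κ₀, z₀, hB₀, hκ₀, h⟩ := h2 a p p' C δ θ ha hp hp' hne hap hap' hC hδ hθ hθ1
  filter_upwards [eventually_ge_atTop B₀] with B hB
  filter_upwards [Ioc_mem_nhdsGT hκ₀] with κ hκ
  filter_upwards [eventually_ge_atTop z₀] with z hz V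
  obtain ⟨R₀, A₀, hA₀, h3⟩ := h z V hz
  filter_upwards [eventually_ge_atTop R₀] with R hR
  filter_upwards [eventually_ge_atTop A₀] with A hA
  obtain ⟨X, hX⟩ := h3 A hA
  filter_upwards [eventually_ge_atTop X] with x hx r Y ψ f t hr hrx hY hψ hf ht hor M hM
  refine hX x r Y ψ f t hx hr hrx (hY.trans ?_) hψ hf ht ?_ M hM
  · exact mul_le_mul_of_nonneg_right hκ.2 (Real.log_natCast_nonneg x)
  · rcases hor with h4 | h4
    · exact Or.inl (lt_of_le_of_lt hR h4)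
    · exact Or.inr (lt_of_le_of_lt (mul_le_mul_of_nonneg_right hB (Nat.cast_nonneg x)) h4)

end LCW_

open LCW_ in
theorem prove_LCW (h1 : T_KAT) (h2 : T_CRW) (h3 : T_STW) (h4 : T_XZ) (h5 : T_XZW) :
    T_LCW := by
  intro a C ε θ ha hC hε hθ hθ1
  obtain ⟨P, δ, X₁, hP, hδ, hKAT⟩ := h1 (ε / 2) a.natAbs (by positivity)
  have hPa : ∀ p ∈ P, |a| < (p : ℤ) := by
    intro p hp
    have h5 := (hP p hp).2
    rw [Int.abs_eq_natAbs]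
    exact_mod_cast h5
  obtain ⟨B, hB⟩ := (LC_.ev_pairs P fun p hp q hq hpq => crs_ev h2 a p q C δ θ ha (hP p hp).1
    (hP q hq).1 hpq (hPa p hp) (hPa q hq) hC hδ hθ hθ1).exists
  obtain ⟨κ, hκ, hκ0⟩ := ((LC_.ev_pairs P hB).and self_mem_nhdsWithin).exists
  have hκ0 : 0 < κ := hκ0
  obtain ⟨z₁, hz₁⟩ := h3 (ε / 4) (by positivity)
  obtain ⟨z, hz, hzz⟩ := ((LC_.ev_pairs P hκ).and (eventually_ge_atTop z₁)).exists
  obtain ⟨V, A₁, hA₁, hV⟩ := hz₁ z hzz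
  obtain ⟨R, hR⟩ := (LC_.ev_pairs P fun p hp q hq hpq => hz p hp q hq hpq V).exists
  obtain ⟨A, hA, hAA⟩ := ((LC_.ev_pairs P hR).and (eventually_ge_atTop A₁)).exists
  obtain ⟨X₂, hX₂⟩ := hV A κ hAA hκ0
  have hx := ((LC_.ev_pairs P hA).and ((eventually_ge_atTop X₁).and ((eventually_ge_atTop X₂).and
    ((eventually_ge_atTop ⌈8 * (a.natAbs : ℝ) / ε⌉₊).and (eventually_ge_atTop 1)))))
  obtain ⟨X, hX⟩ := Filter.eventually_atTop.1 hx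
  refine ⟨R, X, B, A, hA₁.trans hAA, fun x r ψ f g t hxX hf hg hr hψ hrx ht hd hor => ?_⟩
  obtain ⟨hx1, hx2, hx3, hx4, hx5⟩ := hX x hxX
  have hx5' : (1 : ℝ) ≤ x := by exact_mod_cast hx5
  have hrx' : r ≤ x := by
    have h6 : (r : ℝ) ≤ x := by
      refine hrx.trans ?_
      calc (x : ℝ) ^ (1 - θ) ≤ (x : ℝ) ^ (1 : ℝ) :=
            Real.rpow_le_rpow_of_exponent_le hx5' (by linarith)
        _ = x := Real.rpow_one _
    exact_mod_cast h6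
  have hY : ((⌊κ * Real.log x⌋₊ : ℕ) : ℝ) ≤ κ * Real.log x :=
    Nat.floor_le (mul_nonneg hκ0.le (Real.log_natCast_nonneg x))
  set D := DY z V ⌊κ * Real.log x⌋₊ r with hD
  set w := ⌊(x : ℝ) ^ (1 / A)⌋₊ with hw
  have hD1 : 1 ≤ D := (h5 z V ⌊κ * Real.log x⌋₊ r hr).1
  obtain ⟨-, -, hG, -⟩ := h4.2 r ψ f t D hf hD1
  have hK := hKAT x hx2 g (fun n => Gf f ψ t D z w (sh a n)) hg (fun n => hG z w _)
    fun p hp q hq hpq => hx1 p hp q hq hpq r _ ψ f t hr hrx hY hψ hf ht hor (x / max p q)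
      (Nat.div_le_self _ _)
  have hS := hX₂ x f r ψ t hx3 hf hr hrx' hd
  have hsh := MainAux.sum_sh (fun m => ‖f m - Gf f ψ t D z w m‖) (fun _ => norm_nonneg _)
    (fun m => by
      refine (norm_sub_le _ _).trans ?_
      linarith [hf.bd m, hG z w m]) a x
  have h8 : 2 * (a.natAbs : ℝ) ≤ ε / 4 * x := by
    have h9 : 8 * (a.natAbs : ℝ) / ε ≤ x := Nat.ceil_le.1 hx4
    rw [div_le_iff₀ hε] at h9
    linarith
  have e : ∑ n ∈ Finset.Icc 1 x, g n * f (sh a n) =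
      ∑ n ∈ Finset.Icc 1 x, g n * Gf f ψ t D z w (sh a n) +
        ∑ n ∈ Finset.Icc 1 x, g n * (f (sh a n) - Gf f ψ t D z w (sh a n)) := by
    rw [← Finset.sum_add_distrib]
    refine Finset.sum_congr rfl fun n _ => ?_
    ring
  have h10 : ‖∑ n ∈ Finset.Icc 1 x, g n * (f (sh a n) - Gf f ψ t D z w (sh a n))‖ ≤
      ∑ n ∈ Finset.Icc 1 x, ‖f (sh a n) - Gf f ψ t D z w (sh a n)‖ := by
    refine (norm_sum_le _ _).trans (Finset.sum_le_sum fun n _ => ?_)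
    rw [norm_mul]
    exact mul_le_of_le_one_left (norm_nonneg _) (hg.bd n)
  rw [e]
  refine (norm_add_le _ _).trans ?_
  have h11 := (h10.trans hsh).trans (add_le_add hS h8)
  linarith

end Pool.Agent.TPX
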