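import Pool.Agent.TPX.Targets
import Pool.Agent.TPM.MEA

set_option autoImplicit false

/-! TPX-MEW: the mean of the cross product if a prime `ℓ` with `ℓ ^ 2 ∤ D` divides the
conductor. -/

namespace Pool.Agent.TPX

open Finset Filter Pool.Agent.Ell Pool.Agent.TPM
open scoped BigOperators ComplexConjugate

namespace MEW_

/-- the structured factor along a progression -/
lemma xz_prog {ℓ k r' D' : ℕ} (hℓ : ℓ.Prime) (hD' : ¬ ℓ ∣ D')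
    (ψ : DirichletCharacter ℂ (ℓ ^ k * r'))
    (ψ₁ : DirichletCharacter ℂ (ℓ ^ k)) (ψ₂ : DirichletCharacter ℂ r')
    (hψ : ∀ n : ℤ, ψ (n : ZMod (ℓ ^ k * r')) = ψ₁ (n : ZMod (ℓ ^ k)) * ψ₂ (n : ZMod r'))
    (f : ℕ → ℂ) (hf : MB f) (t : ℝ) (n0 c : ℤ) :
    ∃ κ : ℂ, ‖κ‖ ≤ 1 ∧ ∀ s : ℤ,
      xz f ψ t D' (n0 + (D' * r' : ℕ) * (c * s)) =
        κ * ψ₁ ((n0 + (D' * r' : ℕ) * (c * s) : ℤ) : ZMod (ℓ ^ k)) := by
  set e := Int.gcd n0 D' with he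
  have hD0 : D' ≠ 0 := by
    rintro rfl
    exact hD' (dvd_zero _)
  have he0 : 0 < e := Int.gcd_pos_of_ne_zero_right _ (by exact_mod_cast hD0)
  have heD : e ∣ D' := by
    have := Int.gcd_dvd_right n0 (D' : ℤ)
    rw [← he] at this
    exact_mod_cast this
  have hen : (e : ℤ) ∣ n0 := Int.gcd_dvd_left _ _
  have heℓ : ¬ ℓ ∣ e := fun h => hD' (h.trans heD)
  have hu : ‖ψ₁ ((e : ℤ) : ZMod (ℓ ^ k))‖ = 1 := by
    have : NeZero (ℓ ^ k) := ⟨pow_ne_zero _ hℓ.ne_zero⟩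
    have h1 : IsUnit ((e : ℕ) : ZMod (ℓ ^ k)) :=
      (ZMod.isUnit_iff_coprime e (ℓ ^ k)).2
        (Nat.Coprime.pow_right _ ((Nat.Prime.coprime_iff_not_dvd hℓ).2 heℓ).symm)
    have h2 := ψ₁.unit_norm_eq_one h1.unit
    simpa using h2
  refine ⟨f e * conj (nit t e) * ψ₂ ((n0 / (e : ℤ) : ℤ) : ZMod r') *
    conj (ψ₁ ((e : ℤ) : ZMod (ℓ ^ k))), ?_, ?_⟩
  · rw [norm_mul, norm_mul, norm_mul, RCLike.norm_conj, RCLike.norm_conj]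
    exact mul_le_one₀ (mul_le_one₀ (mul_le_one₀ (hf.bd _) (norm_nonneg _) (KeyA.norm_nit _ _))
      (norm_nonneg _) (DirichletCharacter.norm_le_one _ _)) (norm_nonneg _) hu.le
  · intro s
    set n := n0 + (D' * r' : ℕ) * (c * s) with hn
    have hn' : n = n0 + (D' : ℤ) * (r' * (c * s)) := by
      rw [hn]
      push_cast
      ring
    have hg1 : Int.gcd n D' = e := by
      rw [hn', Int.gcd_add_mul_left_left]
    unfold xz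
    rw [hg1, hψ]
    have hdiv : n / (e : ℤ) = n0 / (e : ℤ) + (D' : ℤ) / (e : ℤ) * (r' * (c * s)) := by
      have heD' : (e : ℤ) ∣ (D' : ℤ) := by exact_mod_cast heD
      rw [hn', Int.add_ediv_of_dvd_left hen, mul_comm (D' : ℤ) _, Int.mul_ediv_assoc _ heD',
        mul_comm (r' * (c * s) : ℤ)]
    have h2 : ψ₂ ((n / (e : ℤ) : ℤ) : ZMod r') = ψ₂ ((n0 / (e : ℤ) : ℤ) : ZMod r') := by
      rw [hdiv]
      congr 1
      push_cast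
      simp
    have hen' : (e : ℤ) ∣ n := by
      rw [← hg1]
      exact Int.gcd_dvd_left _ _
    have h3 : ψ₁ ((n / (e : ℤ) : ℤ) : ZMod (ℓ ^ k)) * ψ₁ ((e : ℤ) : ZMod (ℓ ^ k)) =
        ψ₁ (n : ZMod (ℓ ^ k)) := by
      rw [← map_mul, ← Int.cast_mul, Int.ediv_mul_cancel hen']
    have h4 : ψ₁ ((e : ℤ) : ZMod (ℓ ^ k)) * conj (ψ₁ ((e : ℤ) : ZMod (ℓ ^ k))) = 1 := by
      rw [Complex.mul_conj, Complex.normSq_eq_norm_sq, hu]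
      norm_num
    rw [h2, ← h3]
    calc f e * conj (nit t e) * (ψ₁ ((n / (e : ℤ) : ℤ) : ZMod (ℓ ^ k)) *
          ψ₂ ((n0 / (e : ℤ) : ℤ) : ZMod r'))
        = f e * conj (nit t e) * (ψ₁ ((n / (e : ℤ) : ℤ) : ZMod (ℓ ^ k)) *
          ψ₂ ((n0 / (e : ℤ) : ℤ) : ZMod r')) *
          (ψ₁ ((e : ℤ) : ZMod (ℓ ^ k)) * conj (ψ₁ ((e : ℤ) : ZMod (ℓ ^ k)))) := by
          rw [h4, mul_one]
      _ = _ := by ring

/-- the main estimate if `ℓ ∤ D` -/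
lemma core {ℓ k r' D' p p' : ℕ} (hℓ : ℓ.Prime) (hk : 1 ≤ k) (hr' : ¬ ℓ ∣ r') (hD' : ¬ ℓ ∣ D')
    (a : ℤ) (ψ : DirichletCharacter ℂ (ℓ ^ k * r'))
    (ψ₁ : DirichletCharacter ℂ (ℓ ^ k)) (ψ₂ : DirichletCharacter ℂ r')
    (hψ : ∀ n : ℤ, ψ (n : ZMod (ℓ ^ k * r')) = ψ₁ (n : ZMod (ℓ ^ k)) * ψ₂ (n : ZMod r'))
    (f : ℕ → ℂ) (hf : MB f) (t : ℝ) (K0 : ℝ)
    (hK : ‖∑ m ∈ Finset.range (ℓ ^ k), EllTw.ch ψ₁ a (p * m) *
      conj (EllTw.ch ψ₁ a (p' * m))‖ ≤ K0) :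
    ‖mean (D' * (ℓ ^ k * r')) (Lm f ψ t D' a p p')‖ ≤ K0 / ℓ := by
  have hD0 : D' ≠ 0 := by
    rintro rfl
    exact hD' (dvd_zero _)
  have hr0 : r' ≠ 0 := by
    rintro rfl
    exact hr' (dvd_zero _)
  have hℓ0 : (0 : ℝ) < ℓ := by exact_mod_cast hℓ.pos
  have hNZ : NeZero (ℓ ^ k) := ⟨pow_ne_zero _ hℓ.ne_zero⟩
  have hMℓ : ¬ ℓ ∣ D' * r' := by
    intro h
    rcases (Nat.Prime.dvd_mul hℓ).1 h with h1 | h1
    · exact hD' h1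
    · exact hr' h1
  have hMc : (D' * r').Coprime (ℓ ^ k) :=
    Nat.Coprime.pow_right _ ((Nat.Prime.coprime_iff_not_dvd hℓ).2 hMℓ).symm
  have e1 : D' * (ℓ ^ k * r') = (D' * r') * ℓ ^ k := by ring
  rw [e1]
  have hq : 1 ≤ ℓ ^ k := pow_pos hℓ.pos _
  have hM1 : 1 ≤ D' * r' := Nat.mul_pos (Nat.pos_of_ne_zero hD0) (Nat.pos_of_ne_zero hr0)
  have hK0 : 0 ≤ K0 := (norm_nonneg _).trans hK
  refine (prove_AVG (ℓ ^ k) (D' * r') _ K0 hq hM1 ?_).trans ?_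
  · intro m0 _
    obtain ⟨κ, hκ, Hκ⟩ := xz_prog hℓ hD' ψ ψ₁ ψ₂ hψ f hf t ((p : ℤ) * m0 + a) p
    obtain ⟨κ', hκ', Hκ'⟩ := xz_prog hℓ hD' ψ ψ₁ ψ₂ hψ f hf t ((p' : ℤ) * m0 + a) p'
    set M := D' * r' with hM
    have en : ∀ (p s : ℕ), (p : ℤ) * ((m0 + M * s : ℕ) : ℤ) + a =
        ((p : ℤ) * m0 + a) + (M : ℕ) * ((p : ℤ) * (s : ℤ)) := by
      intro p s
      push_cast
      ring
    set Θ : ZMod (ℓ ^ k) → ℂ := fun x => ψ₁ ((p : ZMod (ℓ ^ k)) * x + (a : ZMod (ℓ ^ k))) *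
      conj (ψ₁ ((p' : ZMod (ℓ ^ k)) * x + (a : ZMod (ℓ ^ k)))) with hΘ
    have hpt : ∀ s : ℕ, Lm f ψ t D' a p p' (m0 + M * s) =
        κ * conj κ' * Θ ((m0 : ZMod (ℓ ^ k)) + (M : ZMod (ℓ ^ k)) * (s : ZMod (ℓ ^ k))) := by
      intro s
      have c1 : ∀ p : ℕ, (((p : ℤ) * ((m0 + M * s : ℕ) : ℤ) + a : ℤ) : ZMod (ℓ ^ k)) =
          (p : ZMod (ℓ ^ k)) * ((m0 : ZMod (ℓ ^ k)) + (M : ZMod (ℓ ^ k)) * (s : ZMod (ℓ ^ k))) +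
            (a : ZMod (ℓ ^ k)) := by
        intro p
        push_cast
        ring
      have hΘs : Θ ((m0 : ZMod (ℓ ^ k)) + (M : ZMod (ℓ ^ k)) * (s : ZMod (ℓ ^ k))) =
          ψ₁ (((p : ℤ) * ((m0 + M * s : ℕ) : ℤ) + a : ℤ) : ZMod (ℓ ^ k)) *
          conj (ψ₁ (((p' : ℤ) * ((m0 + M * s : ℕ) : ℤ) + a : ℤ) : ZMod (ℓ ^ k))) := by
        rw [c1, c1]
      rw [hΘs]
      unfold Lm
      have g1 := Hκ s
      have g2 := Hκ' s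
      rw [← en] at g1 g2
      rw [g1, g2, map_mul]
      ring
    -- the complete sum
    have hS : ∑ s ∈ range (ℓ ^ k),
        Θ ((m0 : ZMod (ℓ ^ k)) + (M : ZMod (ℓ ^ k)) * (s : ZMod (ℓ ^ k))) =
        ∑ x : ZMod (ℓ ^ k), Θ x := MEA_.sum_aff Θ m0 M hMc
    have hΘK : ‖∑ x : ZMod (ℓ ^ k), Θ x‖ ≤ K0 := by
      rw [← EllTw.RAM_.sum_range_zmod]
      refine le_trans (le_of_eq ?_) hK
      congr 1
      refine Finset.sum_congr rfl fun m _ => ?_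
      unfold EllTw.ch
      rw [hΘ]
      push_cast
      rfl
    have e2 : ∑ s ∈ range (ℓ ^ k), Lm f ψ t D' a p p' (m0 + M * s) =
        κ * conj κ' * ∑ x : ZMod (ℓ ^ k), Θ x := by
      rw [← hS, Finset.mul_sum]
      exact Finset.sum_congr rfl fun s _ => hpt s
    rw [e2, norm_mul, norm_mul, RCLike.norm_conj]
    have h1 : ‖κ‖ * ‖κ'‖ ≤ 1 := mul_le_one₀ hκ (norm_nonneg _) hκ'
    calc _ ≤ 1 * K0 := mul_le_mul h1 hΘK (norm_nonneg _) zero_le_one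
      _ = _ := one_mul _
  · have hℓk : (ℓ : ℝ) ≤ ((ℓ ^ k : ℕ) : ℝ) := by
      push_cast
      calc (ℓ : ℝ) = (ℓ : ℝ) ^ 1 := (pow_one _).symm
        _ ≤ _ := pow_le_pow_right₀ (by exact_mod_cast hℓ.one_lt.le) hk
    exact div_le_div_of_nonneg_left hK0 hℓ0 hℓk

end MEW_

theorem prove_MEW (h1 : T_FAC) (h2 : EllTw.T_RAM) : T_MEW := by
  intro a p p' ha hp hp' hne
  obtain ⟨K0, hK0⟩ := h2 a p p' ha hp hp' hne
  refine ⟨|K0| + 2, by positivity, ?_⟩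
  intro D r ℓ ψ f t hr hD1 hψ hf hℓ hℓr hℓD hnp hnp'
  obtain ⟨k, r', hr', hrk⟩ := Nat.exists_eq_pow_mul_and_not_dvd (n := r) (by omega) ℓ hℓ.ne_one
  have hk : 1 ≤ k := by
    rcases Nat.eq_zero_or_pos k with h | h
    · rw [h, pow_zero, one_mul] at hrk
      rw [hrk] at hℓr
      exact absurd hℓr hr'
    · exact h
  subst hrk
  have hr0 : r' ≠ 0 := by
    rintro rfl
    exact hr' (dvd_zero _)
  obtain ⟨ψ₁, ψ₂, hψ₁, hfac⟩ := h1 (ℓ ^ k) r' ψ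
    (Nat.one_le_iff_ne_zero.2 (pow_ne_zero _ hℓ.ne_zero))
    (Nat.one_le_iff_ne_zero.2 hr0)
    (Nat.Coprime.pow_left _ ((Nat.Prime.coprime_iff_not_dvd hℓ).2 hr')) hψ
  have hK1 := (hK0 (ℓ ^ k) ψ₁ (Nat.one_le_iff_ne_zero.2 (pow_ne_zero _ hℓ.ne_zero)) hψ₁).trans
    (le_abs_self _)
  have hℓ0 : (0 : ℝ) < ℓ := by exact_mod_cast hℓ.pos
  by_cases hd : ℓ ∣ D
  · obtain ⟨D', rfl⟩ := hd
    have hD' : ¬ ℓ ∣ D' := by
      rintro ⟨D'', rfl⟩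
      exact hℓD ⟨D'', by ring⟩
    exact MEA_.core hℓ hk hr' hD' hnp hnp' a ψ ψ₁ ψ₂ hfac f hf t |K0| hK1
  · refine (MEW_.core hℓ hk hr' hd a ψ ψ₁ ψ₂ hfac f hf t |K0| hK1).trans ?_
    exact div_le_div_of_nonneg_right (by linarith) hℓ0.le

end Pool.Agent.TPX
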