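import Pool.Agent.TPX.XZW
import Pool.Agent.TPX.MEW
import Pool.Agent.TPX.MNW
import Pool.Agent.TPX.EQW
import Pool.Agent.TPX.MSW
import Pool.Agent.TPX.STW
import Pool.Agent.TPX.BLW
import Pool.Agent.TPX.CRW
import Pool.Agent.TPX.LCW
import Pool.Agent.TPX.FIW
import Pool.Agent.TPM.RAM2
import Pool.Agent.TPM.FAC
import Pool.Agent.TPM.MEB
import Pool.Agent.TPM.XZ
import Pool.Agent.Ell.All
import Pool.Agent.Ell.Core
import Pool.Agent.EllTw.RAM

set_option autoImplicit false

/-! Two-point Elliott with one structured function, moduli up to `x ^ (1 - θ)`: assembly. -/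

namespace Pool.Agent.TPX

open Pool.Agent.Ell Pool.Agent.TPM

theorem all_LCW : T_LCW := by
  have hms : T_MSW := prove_MSW (p_FL p_MERT) p_CRT
  have heq : T_EQW := prove_EQW p_CORE p_PHI
  have hosc : T_OSC := p_OSC p_CORE p_PHI
  have hmn : T_MNW := prove_MNW (prove_MEW prove_FAC EllTw.p_RAM)
    (prove_MEB prove_RAM2 prove_XZ prove_AVG) prove_XZW
  exact prove_LCW p_KAT
    (prove_CRW (prove_BLW hms heq hosc hmn prove_XZ prove_XZW) prove_XZ prove_XZW)
    (prove_STW p_MERT prove_XZ prove_XZW) prove_XZ prove_XZW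

theorem all_FIW : T_FIW := prove_FIW all_LCW

end Pool.Agent.TPX
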