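import Pool.Agent.TPX.EQW
import Pool.Agent.TPX.LBL
import Pool.Agent.TPX.LTW
import Pool.Agent.TPX.LFI
import Pool.Agent.EllTw.RAM
import Pool.Agent.EllTw.MEAN
import Pool.Agent.EllTw.INJ
import Pool.Agent.EllTw.BLK
import Pool.Agent.Ell.CRT
import Pool.Agent.Ell.Kat
import Pool.Agent.Ell.Phi
import Pool.Agent.Ell.EQ
import Pool.Agent.Ell.Core

set_option autoImplicit false

/-! All but boundedly many twists, wide sets of moduli: assembly. -/

namespace Pool.Agent.TPX

open Pool.Agent.Ell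

theorem all_LFI : T_LFI :=
  prove_LFI (prove_LTW p_KAT (prove_LBL (EllTw.p_MEAN EllTw.p_RAM) EllTw.p_INJ EllTw.p_DUAL
    (prove_EQW p_CORE p_PHI) (p_OSC p_CORE p_PHI)))

end Pool.Agent.TPX
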