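import Pool.Agent.TPM.Targets

set_option autoImplicit false

/-! Wide moduli for MP_f3f922_nt: two-point Elliott for conductors up to `x ^ (1 - θ)`, and all but
boundedly many twists with moduli up to `x ^ (1/2 - θ)`: targets. The definitions of
`Pool/Agent/TPM/Targets.lean` (`xz`, `zt`, `Gf`, `Lm`) are used with the new `D = DY z V Y r`. -/

namespace Pool.Agent.TPX

open Finset Filter Pool.Agent.Ell Pool.Agent.TPM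
open scoped BigOperators ComplexConjugate

/-- small prime powers times the primes in `(z, Y]` which divide `r` -/
def DY (z V Y r : ℕ) : ℕ := Rep.Q1 z V * ∏ ℓ ∈ r.primeFactors.filter (fun ℓ => z < ℓ ∧ ℓ ≤ Y), ℓ

/-- TPX-EQW (from `T_CORE`, `T_PHI`). `T_EQ` for every modulus `Q ≤ N ^ (1 - θ)`.
PROOF. Copy `p_EQ` in `Pool/Agent/Ell/EQ.lean` (its lemmas `EQ.slow`, `EQ.classes`,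
`EQ.core_bound`, `EQ.lam_le`, `EQ.big` are reusable). Wlog `θ ≤ 1/2`. Slow case
`Λ = Lam a t N ≤ N ^ (θ / 2)`: the bound is `2 C1 Q Λ + 2 Q ≤ (2 C1 + 2) N ^ (1 - θ / 2) ≤
N ^ (1 - c)` for `c < θ / 2`. Fast case `Λ > N ^ (θ / 2)`: split into classes `b mod Q`, each class
sum is over an interval of length about `M = N / Q ≥ N ^ θ`; `T_PHI` (it allows every `Q ≤ N`) and
`T_CORE` with `r = ⌈2 (C + 1) / θ⌉ + 1` (so `Λ ≤ C' N ^ C ≤ M ^ (r / 2)`), `η0 = M ^ (-1/(2 k^2))`: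
each class sum is `≤ 3 K M N ^ (-τ)`, `τ = κ θ / (4 k^2)` (as `Λ, M ≥ N ^ (θ / 2)`), so both sums
are `≤ 3 K N ^ (1 - τ)` up to constants; `c = min (1/8) (θ / 4) (τ / 2)`. -/
def T_EQW : Prop := ∀ (k : ℕ) (a : Fin k → ℤ) (p q : ℕ) (C θ : ℝ), 1 ≤ k →
  Function.Injective a → (∀ j, a j ≠ 0) → 1 ≤ p → 1 ≤ q → p ≠ q → 0 < C → 0 < θ → θ < 1 →
  ∃ (c : ℝ) (N0 : ℕ), 0 < c ∧ c ≤ 1 / 4 ∧ ∀ (N : ℕ) (t : Fin k → ℝ), N0 ≤ N →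
  (∀ j, |t j| ≤ (N : ℝ) ^ C) → ∀ (Q : ℕ) (ξ : ℕ → ℂ), 1 ≤ Q → (Q : ℝ) ≤ (N : ℝ) ^ (1 - θ) →
  Per Q ξ → (∀ m, ‖ξ m‖ ≤ 1) → ∀ x y : ℕ, N ≤ x → x ≤ y → y ≤ 2 * N →
  ‖∑ m ∈ Finset.Ioc x y, ei (PF a t p q 0 m) * ξ m -
    mean Q ξ * ∑ m ∈ Finset.Ioc x y, ei (PF a t p q 0 m)‖ ≤ (N : ℝ) ^ (1 - c)

/-- TPX-MSW. `T_MSU` with a larger range of moduli.
PROOF. Copy `Pool/Agent/TPM/MSU.lean`: the hypothesis `q0 N ^ (c / 4) ≤ N ^ ϑ` is exactly what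
lemma `term` needs (`hbig`), nothing else changes (errors `N ^ (1 - c)` per set, at most
`N ^ (c / 4)` sets, weights at most `N ^ (c / 4)`). -/
def T_MSW : Prop := ∀ (r : ℕ) (c ϑ δ : ℝ), 1 ≤ r → 0 < c → c ≤ 1 / 4 → 0 < δ →
  ∃ (s : ℝ) (N0 : ℕ), 1 ≤ s ∧ ∀ N z w q0 : ℕ, N0 ≤ N → 2 * r ≤ z → (w : ℝ) ^ s ≤ N →
  1 ≤ q0 → (q0 : ℝ) * (N : ℝ) ^ (c / 4) ≤ (N : ℝ) ^ ϑ →
  ∀ (E : ℕ → ℂ) (x y : ℕ), (∀ m, ‖E m‖ ≤ 1) → x ≤ y → y ≤ x + N →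
  (∀ (q : ℕ) (ξ : ℕ → ℂ), 1 ≤ q → (q : ℝ) ≤ (N : ℝ) ^ ϑ → Per q ξ → (∀ m, ‖ξ m‖ ≤ 1) →
    ‖∑ m ∈ Finset.Ioc x y, E m * ξ m - mean q ξ * ∑ m ∈ Finset.Ioc x y, E m‖ ≤
      (N : ℝ) ^ (1 - c)) →
  ∀ (ξ : ℕ → ℂ) (u : ℕ → ℕ → ℂ) (R : ℕ → Finset ℕ), Per q0 ξ → (∀ m, ‖ξ m‖ ≤ 1) →
  (∀ ℓ ∈ prs z w, Per ℓ (u ℓ) ∧ (R ℓ).card ≤ r ∧
    ∀ m, ‖1 + u ℓ m‖ ≤ 1 ∧ (u ℓ m ≠ 0 → m % ℓ ∈ R ℓ)) →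
  (∀ ℓ ∈ prs z w, ℓ ∣ q0 → ∀ m, u ℓ m = 0) →
  ‖∑ m ∈ Finset.Ioc x y, E m * (ξ m * ∏ ℓ ∈ prs z w, (1 + u ℓ m)) -
    mean q0 ξ * (∏ ℓ ∈ prs z w, (1 + mean ℓ (u ℓ))) * ∑ m ∈ Finset.Ioc x y, E m‖ ≤ δ * N

/-- TPX-XZW. Basic facts on `DY` (the product of the primes `≤ Y` is `≤ 4 ^ Y`, `primorial`). If
no prime in `(z, Y]` divides `r`, then `DY z V Y r = DD z V 1` (`= Rep.Q1 z V`). -/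
def T_XZW : Prop := ∀ z V Y r : ℕ, 1 ≤ r → 1 ≤ DY z V Y r ∧ DY z V Y r ≤ Rep.Q1 z V * 4 ^ Y ∧
    (∀ ℓ : ℕ, ℓ.Prime → z < ℓ → ((ℓ ∣ DY z V Y r ↔ ℓ ∣ r ∧ ℓ ≤ Y) ∧ ¬ ℓ ^ 2 ∣ DY z V Y r)) ∧
    ((∀ ℓ : ℕ, ℓ.Prime → ℓ ∣ r → ℓ ≤ z) → DY z V Y r = DD z V r)

/-- TPX-STW (from `T_MERT`, `T_XZ`). The structure theorem with `D = DY z V Y r`,
`Y = ⌊κ log x⌋`, `r ≤ x`.
PROOF. Adapt `Pool/Agent/TPM/STR.lean`. Let `n ≤ x` be not `Rep.Bad z V` and not divisible by any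
prime `ℓ ∣ r` with `ℓ > Y`, `ℓ > z`. Let `D = DY z V Y r`, `e = gcd(n, D)`, `n = e m`. Every prime
`p ∣ m` is `> z`, does not divide `r` (if `p ∣ r` then `p ≤ Y`, so `p ∣ D`, `p ∣ e`, `p^2 ∣ n`), so
the pointwise identity and the error `∑ (p ∣ n, w < p) ‖f p - ψ(p) p^{it}‖` are as in STR.lean (now
primes `p > w` may divide `r`; then `ψ(p) = 0`, the bounds still hold). The exceptional `n` with a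
prime `ℓ ∣ r`, `ℓ > max z Y`, number at most `∑ x / ℓ ≤ x s / Y`, `s` = number of such `ℓ`,
`Y ^ s ≤ r ≤ x`, so `s ≤ log x / log Y` and `s / Y ≤ 2 / (κ log Y) → 0`. -/
def T_STW : Prop := ∀ ε : ℝ, 0 < ε → ∃ z1 : ℕ, ∀ z : ℕ, z1 ≤ z →
  ∃ (V : ℕ) (A0 : ℝ), 1 ≤ A0 ∧ ∀ A κ : ℝ, A0 ≤ A → 0 < κ → ∃ X : ℕ,
  ∀ (x : ℕ) (f : ℕ → ℂ) (r : ℕ) (ψ : DirichletCharacter ℂ r) (t : ℝ), X ≤ x → MB f → 1 ≤ r →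
  r ≤ x → dist2 f ψ t ((x : ℝ) ^ (1 / A)) x ≤ 1 / A →
  ∑ n ∈ Finset.Icc 1 x, ‖f n - Gf f ψ t (DY z V ⌊κ * Real.log x⌋₊ r) z
    ⌊(x : ℝ) ^ (1 / A)⌋₊ n‖ ≤ ε * x

/-- TPX-MEW (helper70). The mean of the cross product if a prime `ℓ ∣ r` with `ℓ^2 ∤ D`. -/
def T_MEW : Prop := ∀ (a : ℤ) (p p' : ℕ), a ≠ 0 → p.Prime → p'.Prime → p ≠ p' →
  ∃ K : ℝ, 0 < K ∧ ∀ (D r ℓ : ℕ) (ψ : DirichletCharacter ℂ r) (f : ℕ → ℂ) (t : ℝ), 1 ≤ r →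
  1 ≤ D → ψ.IsPrimitive → MB f → ℓ.Prime → ℓ ∣ r → ¬ ℓ ^ 2 ∣ D → ¬ ℓ ∣ p → ¬ ℓ ∣ p' →
  ‖mean (D * r) (Lm f ψ t D a p p')‖ ≤ K / ℓ

/-- TPX-MNW (from `T_MEW`, `TPM.T_MEB`, `T_XZW`): as `TPM/MN.lean`. -/
def T_MNW : Prop := ∀ (a : ℤ) (p p' : ℕ) (η : ℝ), a ≠ 0 → p.Prime → p'.Prime → p ≠ p' → 0 < η →
  ∃ z0 : ℕ, ∀ z V : ℕ, z0 ≤ z → ∃ R : ℕ, ∀ (Y r : ℕ) (ψ : DirichletCharacter ℂ r) (f : ℕ → ℂ)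
  (t : ℝ), R < r → ψ.IsPrimitive → MB f →
  ‖mean (DY z V Y r * r) (Lm f ψ t (DY z V Y r) a p p')‖ ≤ η

/-- TPX-BLW (from `T_MSW`, `T_EQW`, `T_OSC`, `T_MNW`, `T_XZ`, `T_XZW`). One dyadic block.
PROOF. Adapt `Pool/Agent/TPM/BLK.lean`. `T_EQW` with `θ / 2` gives `c1`; `c = min c1 (θ / 4)` (its
error `N ^ (1 - c1) ≤ N ^ (1 - c)`); `T_MSW` with `r = 2`, `c`, `ϑ = 1 - θ / 2`, `η / 2`. The period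
is `q0 = D r`, `D = DY z V Y r ≤ Q1 z V * 4 ^ Y`, `4 ^ Y ≤ N ^ (θ / 8)` for `Y ≤ κ log N`,
`κ = θ / 16` (`log 4 < 2`), so `q0 N ^ (c / 4) ≤ Q1 N ^ (θ/8 + 1 - θ + θ/16) ≤ N ^ (1 - θ / 2)` for
large `N`. The rest is unchanged (`ℓ ∈ prs z w`, `ℓ ∣ D r` implies `ℓ ∣ r`, so `zt = 1`). -/
def T_BLW : Prop := ∀ (a : ℤ) (p p' : ℕ) (C η θ : ℝ), a ≠ 0 → p.Prime → p'.Prime → p ≠ p' →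
  |a| < (p : ℤ) → |a| < (p' : ℤ) → 0 < C → 0 < η → 0 < θ → θ < 1 →
  ∃ (s κ B : ℝ) (z0 : ℕ), 1 ≤ s ∧ 0 < κ ∧ 0 < B ∧ ∀ z V : ℕ, z0 ≤ z → ∃ R N0 : ℕ,
  ∀ (N w r Y : ℕ) (ψ : DirichletCharacter ℂ r) (f : ℕ → ℂ) (t : ℝ), N0 ≤ N → (w : ℝ) ^ s ≤ N →
  1 ≤ r → (r : ℝ) ≤ (N : ℝ) ^ (1 - θ) → (Y : ℝ) ≤ κ * Real.log N → ψ.IsPrimitive → MB f →
  |t| ≤ (N : ℝ) ^ C → (R < r ∨ B * N < |t|) → ∀ x y : ℕ, N ≤ x → x ≤ y → y ≤ 2 * N →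
  ‖∑ m ∈ Finset.Ioc x y, Gf f ψ t (DY z V Y r) z w (sh a (p * m)) *
    conj (Gf f ψ t (DY z V Y r) z w (sh a (p' * m)))‖ ≤ η * N

/-- TPX-CRW (from `T_BLW`, `T_XZ`, `T_XZW`). The cross sums up to any `M ≤ x`.
PROOF. Adapt `Pool/Agent/TPM/CRS.lean`: `T_BLW` with `2 C`, `η / 64`, `θ / 2`; for `N ≥ η x / 64`
and large `x`: `x ^ (1 - θ) ≤ N ^ (1 - θ / 2)`, `x ≤ N ^ 2`; `κ` = half of the one of `T_BLW`. -/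
def T_CRW : Prop := ∀ (a : ℤ) (p p' : ℕ) (C η θ : ℝ), a ≠ 0 → p.Prime → p'.Prime → p ≠ p' →
  |a| < (p : ℤ) → |a| < (p' : ℤ) → 0 < C → 0 < η → 0 < θ → θ < 1 →
  ∃ (B κ : ℝ) (z0 : ℕ), 0 < B ∧ 0 < κ ∧ ∀ z V : ℕ, z0 ≤ z → ∃ (R : ℕ) (A0 : ℝ), 1 ≤ A0 ∧
  ∀ A : ℝ, A0 ≤ A → ∃ X : ℕ,
  ∀ (x r Y : ℕ) (ψ : DirichletCharacter ℂ r) (f : ℕ → ℂ) (t : ℝ), X ≤ x → 1 ≤ r →
  (r : ℝ) ≤ (x : ℝ) ^ (1 - θ) → (Y : ℝ) ≤ κ * Real.log x → ψ.IsPrimitive → MB f →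
  |t| ≤ (x : ℝ) ^ C → (R < r ∨ B * x < |t|) → ∀ M : ℕ, M ≤ x →
  ‖∑ m ∈ Finset.Icc 1 M, Gf f ψ t (DY z V Y r) z ⌊(x : ℝ) ^ (1 / A)⌋₊ (sh a (p * m)) *
    conj (Gf f ψ t (DY z V Y r) z ⌊(x : ℝ) ^ (1 / A)⌋₊ (sh a (p' * m)))‖ ≤ η * x

/-- TPX-LCW (from `T_KAT`, `T_CRW`, `T_STW`, `T_XZ`). Large conductor or large `t`.
PROOF. Adapt `Pool/Agent/TPM/LC.lean`; `κ` = the smallest `κ` of the pairs, `Y = ⌊κ log x⌋`. -/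
def T_LCW : Prop := ∀ (a : ℤ) (C ε θ : ℝ), a ≠ 0 → 0 < C → 0 < ε → 0 < θ → θ < 1 →
  ∃ (R X : ℕ) (B A : ℝ), 1 ≤ A ∧ ∀ (x r : ℕ) (ψ : DirichletCharacter ℂ r) (f g : ℕ → ℂ) (t : ℝ),
  X ≤ x → MB f → MB g → 1 ≤ r → ψ.IsPrimitive → (r : ℝ) ≤ (x : ℝ) ^ (1 - θ) →
  |t| ≤ (x : ℝ) ^ C → dist2 f ψ t ((x : ℝ) ^ (1 / A)) x ≤ 1 / A → (R < r ∨ B * x < |t|) →
  ‖∑ n ∈ Finset.Icc 1 x, g n * f (sh a n)‖ ≤ ε * x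

/-- TPX-FIW (from `T_LCW`). The final two-point theorem: adapt `Pool/Agent/TPM/FIN.lean`, with
`T_LCW` for `θ / 2` (`q ≤ x ^ (1 - θ) ≤ ⌊x⌋ ^ (1 - θ / 2)` for large `x`). -/
def T_FIW : Prop := ∀ h₁ h₂ : ℕ, h₁ ≠ h₂ → ∀ C ε θ : ℝ, 0 < C → 0 < ε → 0 < θ → θ < 1 →
    ∃ δ : ℝ, 0 < δ ∧ ∃ A₀ : ℝ, ∀ A : ℝ, 2 ≤ A → A₀ ≤ A → ∀ x : ℝ, A ≤ x →
    ∀ f₁ f₂ : ArithmeticFunction ℂ, f₁.IsMultiplicative → f₂.IsMultiplicative →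
      (∀ n, ‖f₁ n‖ ≤ 1) → (∀ n, ‖f₂ n‖ ≤ 1) →
      (∃ q : ℕ, 1 ≤ q ∧ (q : ℝ) ≤ x ^ (1 - θ) ∧ ∃ χ : DirichletCharacter ℂ q, χ.IsPrimitive ∧
        ∃ t : ℝ, |t| ≤ x ^ C ∧
        ((∑ p ∈ (Finset.Iic ⌊x⌋₊).filter (fun p : ℕ => p.Prime ∧ x ^ δ < p),
              (1 - (f₁ p * (starRingEnd ℂ) (χ (p : ZMod q) *
                (p : ℂ) ^ ((t : ℂ) * Complex.I))).re) / (p : ℝ) ≤ δ ∧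
            ((q : ℝ) ≤ A → |t| ≤ A * x →
              A ≤ Real.sqrt (∑ p ∈ (Finset.Iic ⌊x⌋₊).filter Nat.Prime,
                (1 - (f₁ p * (starRingEnd ℂ) (χ (p : ZMod q) *
                  (p : ℂ) ^ ((t : ℂ) * Complex.I))).re) / (p : ℝ)))) ∨
         (∑ p ∈ (Finset.Iic ⌊x⌋₊).filter (fun p : ℕ => p.Prime ∧ x ^ δ < p),
              (1 - (f₂ p * (starRingEnd ℂ) (χ (p : ZMod q) *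
                (p : ℂ) ^ ((t : ℂ) * Complex.I))).re) / (p : ℝ) ≤ δ ∧
            ∀ q' : ℕ, 1 ≤ q' → (q' : ℝ) ≤ A → ∀ χ' : DirichletCharacter ℂ q', ∀ t' : ℝ,
              |t'| ≤ A * x →
              A ≤ Real.sqrt (∑ p ∈ (Finset.Iic ⌊x⌋₊).filter Nat.Prime,
                (1 - (f₁ p * (starRingEnd ℂ) (χ' (p : ZMod q') *
                  (p : ℂ) ^ ((t' : ℂ) * Complex.I))).re) / (p : ℝ))))) →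
      ‖∑ n ∈ Finset.Icc 1 ⌊x⌋₊, f₁ (n + h₁) * f₂ (n + h₂)‖ / x ≤ ε

/-- TPX-XBL (from `EllTw.T_MEAN`, `T_INJ`, `T_DUAL`, `T_EQW`, `T_OSC`). The block estimate of
`Pool/Agent/EllTw/BLK.lean` for moduli `≤ N ^ (1/2 - θ)`: the same proof, the product of two moduli
is `≤ N ^ (1 - 2 θ)`, use `T_EQW` with `2 θ` (wlog `θ < 1/2`, otherwise use `θ' = 1/4`). -/
def T_XBL : Prop := ∀ (k : ℕ) (a : Fin k → ℤ) (b : Fin k) (p p' : ℕ) (C δ θ : ℝ),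
  Function.Injective a → (∀ j, a j ≠ 0) → p.Prime → p'.Prime → p ≠ p' → (∀ j, |a j| < p) →
  (∀ j, |a j| < p') → 0 < C → 0 < δ → 0 < θ →
  ∃ (K N0 : ℕ) (B : ℝ), ∀ N : ℕ, N0 ≤ N → ∀ x y : ℕ, N ≤ x → x ≤ y → y ≤ 2 * N →
  ∀ (β : ℕ → ℂ) (S : Finset (EllTw.Pt k)), (∀ m, ‖β m‖ ≤ 1) →
  (∀ e ∈ S, 1 ≤ e.q ∧ (e.q : ℝ) ≤ (N : ℝ) ^ (1 / 2 - θ) ∧ (∀ j, |e.t j| ≤ (N : ℝ) ^ C) ∧
    δ * N < ‖∑ m ∈ Finset.Ioc x y, β m * (EllTw.W a b e (p * m) *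
      conj (EllTw.W a b e (p' * m)))‖) →
  (∀ e ∈ S, ∀ e' ∈ S, e ≠ e' → EllTw.Same e.χ e'.χ →
    ∃ l ∈ Finset.Icc 1 k, B * (N : ℝ) ^ l < |tau a (fun j => e.t j - e'.t j) l|) →
  S.card ≤ K

/-- TPX-XTW (from `T_KAT`, `T_XBL`): as `Pool/Agent/EllTw/FIN.lean` (`p_TW`), use `T_XBL` with
`θ / 2` (`x ^ (1/2 - θ) ≤ N ^ (1/2 - θ / 2)` for the blocks `N ≥ c x`). -/
def T_XTW : Prop := ∀ (k : ℕ) (a : Fin k → ℤ) (b : Fin k) (C ε θ : ℝ),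
  Function.Injective a → (∀ j, a j ≠ 0) → 0 < C → 0 < ε → 0 < θ →
  ∃ (J X : ℕ) (B : ℝ), ∀ x : ℕ, X ≤ x → ∀ D : ℕ → ℂ, (∀ n, ‖D n‖ ≤ 1) →
  ∀ S : Finset (EllTw.Pt k),
  (∀ e ∈ S, 1 ≤ e.q ∧ (e.q : ℝ) ≤ (x : ℝ) ^ (1 / 2 - θ) ∧ (∀ j, |e.t j| ≤ (x : ℝ) ^ C) ∧
    ∃ f : ℕ → ℂ, MB f ∧ ε * x < ‖∑ m ∈ Finset.Icc 1 x, f m * (D m * EllTw.W a b e m)‖) →
  (∀ e ∈ S, ∀ e' ∈ S, e ≠ e' → EllTw.Same e.χ e'.χ →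
    ∃ l ∈ Finset.Icc 1 k, B * (x : ℝ) ^ l < |tau a (fun j => e.t j - e'.t j) l|) →
  S.card ≤ J

/-- TPX-XFI (from `T_XTW`): as `Pool/Agent/EllTw/Final.lean` (`final`; reuse `exists_max`,
`shift_sum`), with `T_XTW` for `θ / 2`: `x ^ (1/2 - θ) ≤ ⌊x⌋ ^ (1/2 - θ / 2)` for large `x`. -/
def T_XFI : Prop := ∀ (k : ℕ) (h : Fin (k + 1) → ℕ), Function.Injective h →
    ∀ (b : Fin k) (C ε θ : ℝ), 0 < ε → 0 < θ →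
    ∃ (J : ℕ) (B X : ℝ), ∀ x : ℝ, X ≤ x → ∀ D : ℕ → ℂ, (∀ n, ‖D n‖ ≤ 1) →
    ∃ S : Finset (Σ r : ℕ, DirichletCharacter ℂ r × (Fin k → ℝ)), S.card ≤ J ∧
      (∀ e ∈ S, 1 ≤ e.1) ∧
      ∀ (q : ℕ) (χ : DirichletCharacter ℂ q) (t : Fin k → ℝ), 1 ≤ q →
        (q : ℝ) ≤ x ^ (1 / 2 - θ) → (∀ j, |t j| ≤ x ^ C) →
        (∃ e ∈ S, (∀ n : ℕ, n.Coprime (q * e.1) → χ n = e.2.1 n) ∧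
          ∀ l ∈ Finset.Icc 1 k,
            |∑ j, (t j - e.2.2 j) * ((h j.succ : ℝ) - h 0) ^ l| ≤ B * x ^ l) ∨
        ∀ f : ArithmeticFunction ℂ, f.IsMultiplicative → (∀ n, ‖f n‖ ≤ 1) →
          ‖∑ n ∈ Finset.Icc 1 ⌊x⌋₊, D n * f (n + h 0) * χ ((n + h b.succ : ℕ) : ZMod q) *
            ∏ j, ((n + h j.succ : ℕ) : ℂ) ^ ((t j : ℂ) * Complex.I)‖ / x ≤ ε

end Pool.Agent.TPX
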