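import Pool.Agent.TPX.Targets
import Pool.Agent.EllTw.BLK

set_option autoImplicit false

/-! Wide moduli: the block estimate for all but boundedly many twists, `T_XBL`. -/

namespace Pool.Agent.TPX.XBL_

open Finset Filter Pool.Agent.Ell Pool.Agent.Ell.KeyA Pool.Agent.EllTw Pool.Agent.EllTw.BLK_
open scoped BigOperators ComplexConjugate

theorem main (h1 : EllTw.T_MEAN) (h2 : EllTw.T_INJ) (h3 : EllTw.T_DUAL) (h4 : TPX.T_EQW)
    (h5 : Ell.T_OSC) : TPX.T_XBL := by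
  classical
  intro k a b p p' C δ θ ha ha0 hp hp' hpp hpa hpa' hC hδ hθ
  set v : ℝ := min θ (1 / 4) with hv
  have hv0 : 0 < v := lt_min hθ (by norm_num)
  have hv1 : v ≤ 1 / 4 := min_le_right _ _
  have hvθ : v ≤ θ := min_le_left _ _
  have hk : 1 ≤ k := by
    have := b.2
    omega
  set d : ℝ := δ ^ 2 / 2 with hd
  have hd0 : 0 < d := by positivity
  obtain ⟨B0, N1, hB0, HOSC⟩ := h5 k a p p' (C + 1) (d / 4) hk ha ha0 hp.pos hp'.pos hpp
    (by positivity) (by positivity)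
  obtain ⟨c0, N2, hc0, hc04, HEQ⟩ := h4 k a p p' (C + 1) (2 * v) hk ha ha0 hp.pos hp'.pos hpp
    (by positivity) (by positivity) (by linarith)
  obtain ⟨R, HM⟩ := h1 (a b) p p' (d / 2) (ha0 b) hp hp' hpp (by positivity)
  have hlim : Tendsto (fun N : ℕ => (N : ℝ) ^ c0) atTop atTop :=
    (tendsto_rpow_atTop hc0).comp tendsto_natCast_atTop_atTop
  obtain ⟨N3, hN3⟩ := eventually_atTop.mp (hlim.eventually_ge_atTop (4 / d))
  haveI := fin_Cs R
  haveI : Fintype (Cs R) := Fintype.ofFinite _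
  set K1 : ℕ := Fintype.card (Cs R) with hK1
  refine ⟨⌊2 * (K1 : ℝ) / δ ^ 2⌋₊, max N3 (max N2 (max N1 2)), 2 * B0, ?_⟩
  intro N hN x y hx hxy hy β S hβ hS hsep
  have m3 : N3 ≤ N := le_trans (le_max_left _ _) hN
  have m2 : N2 ≤ N := le_trans (le_trans (le_max_left _ _) (le_max_right _ _)) hN
  have m1 : N1 ≤ N := le_trans (le_trans (le_trans (le_max_left _ _) (le_max_right _ _))
      (le_max_right _ _)) hN
  have m0 : 2 ≤ N := le_trans (le_trans (le_trans (le_max_right _ _) (le_max_right _ _))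
      (le_max_right _ _)) hN
  have hNr : (2 : ℝ) ≤ N := by exact_mod_cast m0
  have hN0 : (0 : ℝ) < N := by linarith
  have hNc : (N : ℝ) ^ (1 - c0) ≤ d / 4 * N := by
    have g1 := hN3 N m3
    rw [Real.rpow_sub hN0, Real.rpow_one, div_le_iff₀ (by positivity)]
    have g3 : 4 / d * d ≤ (N : ℝ) ^ c0 * d := mul_le_mul_of_nonneg_right g1 hd0.le
    rw [div_mul_cancel₀ _ hd0.ne'] at g3
    have g4 : (1 : ℝ) ≤ d / 4 * (N : ℝ) ^ c0 := by linarith
    calc (N : ℝ) = 1 * N := by ring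
      _ ≤ (d / 4 * (N : ℝ) ^ c0) * N := mul_le_mul_of_nonneg_right g4 (by positivity)
      _ = d / 4 * N * (N : ℝ) ^ c0 := by ring
  have htd : ∀ e ∈ S, ∀ e' ∈ S, ∀ j, |e.t j - e'.t j| ≤ (N : ℝ) ^ (C + 1) := by
    intro e he e' he' j
    have g1 := (hS e he).2.2.1 j
    have g2 := (hS e' he').2.2.1 j
    have g3 : |e.t j - e'.t j| ≤ |e.t j| + |e'.t j| := abs_sub _ _
    rw [Real.rpow_add hN0, Real.rpow_one]
    have g4 : (0 : ℝ) < (N : ℝ) ^ C := by positivity
    nlinarith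
  have hqq : ∀ e ∈ S, ∀ e' ∈ S, ((e.q * e'.q : ℕ) : ℝ) ≤ (N : ℝ) ^ (1 - 2 * v) := by
    intro e he e' he'
    have g0 : (N : ℝ) ^ (1 / 2 - θ) ≤ (N : ℝ) ^ (1 / 2 - v) :=
      Real.rpow_le_rpow_of_exponent_le (by linarith) (by linarith)
    have g1 := (hS e he).2.1.trans g0
    have g2 := (hS e' he').2.1.trans g0
    push_cast
    calc (e.q : ℝ) * e'.q ≤ (N : ℝ) ^ (1 / 2 - v) * (N : ℝ) ^ (1 / 2 - v) :=
          mul_le_mul g1 g2 (by positivity) (by positivity)
      _ = (N : ℝ) ^ (1 - 2 * v) := by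
          rw [← Real.rpow_add hN0]
          congr 1
          ring
  -- the pairs with a large cross sum
  have hpair : ∀ e ∈ S, ∀ e' ∈ S,
      d * N < ‖∑ m ∈ Finset.Ioc x y, w a b p p' e m * conj (w a b p p' e' m)‖ →
      Lam a (fun j => e.t j - e'.t j) N < B0 ∧
      ∃ (r : ℕ) (θ : DirichletCharacter ℂ r), 1 ≤ r ∧ r ≤ R ∧
        ∀ n : ℕ, n.Coprime (e.q * e'.q) → e.χ n * conj (e'.χ n) = θ n := by
    intro e he e' he' hbig
    have q1 := (hS e he).1
    have q2 := (hS e' he').1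
    refine pair a b p p' hpa hpa' d c0 B0 R N x y hd0 (by omega) hx hxy hy e e' q1 q2 ?_ hNc ?_ ?_
      hbig
    · exact HEQ N (fun j => e.t j - e'.t j) m2 (htd e he e' he') (e.q * e'.q) _
        (Nat.one_le_iff_ne_zero.mpr (Nat.mul_ne_zero (by omega) (by omega)))
        (hqq e he e' he') (per_xi _ _ _ _ _) (norm_xi _ _ _ _ _) x y hx hxy hy
    · intro hL
      exact HOSC N (fun j => e.t j - e'.t j) m1 (htd e he e' he') hL x y hx hxy hy
    · exact HM e.q e'.q e.χ e'.χ q1 q2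
  have key := count S (w a b p p') β (Finset.Ioc x y) δ N K1 h3 hδ hN0 (card_le N x y hx hxy hy)
    hβ (norm_w a b p p') (fun e he => (hS e he).2.2.2) ?_
  · exact Nat.le_floor key
  -- for fixed `e`
  intro e he T hTS hT
  have hch : ∀ e' ∈ T, ∃ z : Cs R, ∀ n : ℕ, n.Coprime (e.q * e'.q) →
      e.χ n * conj (e'.χ n) = z.2 n := by
    intro e' he'
    obtain ⟨_, r, θ, r1, r2, hθ⟩ := hpair e he e' (hTS he') (hT e' he')
    obtain ⟨s, rfl⟩ : ∃ s, r = s + 1 := ⟨r - 1, by omega⟩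
    exact ⟨⟨⟨s, by omega⟩, θ⟩, hθ⟩
  rcases T.eq_empty_or_nonempty with rfl | ⟨e0, he0⟩
  · simp
  haveI : Nonempty (Cs R) := (hch e0 he0).nonempty
  choose! g hg using hch
  have hinj : Set.InjOn g T := by
    intro e1 he1 e2 he2 h12
    by_contra hne
    have hs : Same e1.χ e2.χ := by
      refine h2 e.q e1.q e2.q _ e.χ e1.χ e2.χ (g e1).2 (hS e he).1 (hS e1 (hTS he1)).1
        (hS e2 (hTS he2)).1 (hg e1 he1) ?_
      rw [h12]
      exact hg e2 he2
    obtain ⟨l, hl, hlt⟩ := hsep e1 (hTS he1) e2 (hTS he2) hne hs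
    have hL : ∀ e' ∈ T, |tau a (fun j => e.t j - e'.t j) l| < B0 * (N : ℝ) ^ l := by
      intro e' he'
      have hLam := (hpair e he e' (hTS he') (hT e' he')).1
      have hNl : (0 : ℝ) < (N : ℝ) ^ l := by positivity
      rw [← div_lt_iff₀ hNl]
      refine lt_of_le_of_lt ?_ hLam
      unfold Lam
      exact Finset.single_le_sum (f := fun l => |tau a (fun j => e.t j - e'.t j) l| / (N : ℝ) ^ l)
        (fun l _ => by positivity) hl
    have g1 := hL e1 he1
    have g2 := hL e2 he2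
    rw [tau_sub a e.t e1.t e2.t l] at hlt
    have g3 : |tau a (fun j => e.t j - e2.t j) l - tau a (fun j => e.t j - e1.t j) l| ≤
        |tau a (fun j => e.t j - e2.t j) l| + |tau a (fun j => e.t j - e1.t j) l| := abs_sub _ _
    linarith
  have := Finset.card_le_card_of_injOn g (t := Finset.univ) (fun _ _ => Finset.mem_univ _) hinj
  rwa [Finset.card_univ] at this

end Pool.Agent.TPX.XBL_

namespace Pool.Agent.TPX

/-- XBL -/
theorem prove_XBL (h1 : EllTw.T_MEAN) (h2 : EllTw.T_INJ) (h3 : EllTw.T_DUAL) (h4 : T_EQW)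
    (h5 : Pool.Agent.Ell.T_OSC) : T_XBL := XBL_.main h1 h2 h3 h4 h5

end Pool.Agent.TPX
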