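import Pool.Agent.TPX.Targets
import Pool.Agent.EllTw.FIN

set_option autoImplicit false

/-! All but boundedly many twists with moduli up to `x ^ (1/2 - θ)`: from blocks to the interval. -/

namespace Pool.Agent.TPX.XTW_

open Finset Filter Pool.Agent.Ell Pool.Agent.Ell.KeyA Pool.Agent.Ell.KeyE Pool.Agent.EllTw
  Pool.Agent.EllTw.FIN_
open scoped BigOperators ComplexConjugate

/-- moduli: `x ^ (1/2 - θ) ≤ N ^ (1/2 - θ / 2)` for `N ≥ κ x` -/
theorem large_q (κ θ : ℝ) (hκ : 0 < κ) (hθ : 0 < θ) (hθ2 : θ ≤ 1 / 2) :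
    ∀ᶠ x : ℕ in atTop, ∀ N : ℕ, κ * x ≤ N →
      (x : ℝ) ^ (1 / 2 - θ) ≤ (N : ℝ) ^ (1 / 2 - θ / 2) := by
  have hE : 0 < 1 / 2 - θ / 2 := by linarith
  have h1 : ∀ᶠ x : ℕ in atTop, 1 / κ ^ (1 / 2 - θ / 2) ≤ (x : ℝ) ^ (θ / 2) := by
    have : Tendsto (fun x : ℕ => (x : ℝ) ^ (θ / 2)) atTop atTop :=
      (tendsto_rpow_atTop (by positivity)).comp tendsto_natCast_atTop_atTop
    exact this.eventually_ge_atTop _
  filter_upwards [h1, eventually_ge_atTop 1] with x hx1 hx2 N hN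
  have hx0 : (0 : ℝ) < x := by
    have : (1 : ℝ) ≤ x := by exact_mod_cast hx2
    linarith
  have hκE : 0 < κ ^ (1 / 2 - θ / 2) := Real.rpow_pos_of_pos hκ _
  rw [div_le_iff₀ hκE] at hx1
  have h2 : (κ * x) ^ (1 / 2 - θ / 2) ≤ (N : ℝ) ^ (1 / 2 - θ / 2) :=
    Real.rpow_le_rpow (by positivity) hN hE.le
  refine le_trans ?_ h2
  rw [Real.mul_rpow hκ.le hx0.le]
  have h3 : (x : ℝ) ^ (1 / 2 - θ / 2) = (x : ℝ) ^ (θ / 2) * (x : ℝ) ^ (1 / 2 - θ) := by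
    rw [← Real.rpow_add hx0]
    congr 1
    ring
  rw [h3]
  have h4 : 0 ≤ (x : ℝ) ^ (1 / 2 - θ) := Real.rpow_nonneg hx0.le _
  calc (x : ℝ) ^ (1 / 2 - θ) = 1 * (x : ℝ) ^ (1 / 2 - θ) := (one_mul _).symm
    _ ≤ ((x : ℝ) ^ (θ / 2) * κ ^ (1 / 2 - θ / 2)) * (x : ℝ) ^ (1 / 2 - θ) :=
        mul_le_mul_of_nonneg_right hx1 h4
    _ = κ ^ (1 / 2 - θ / 2) * ((x : ℝ) ^ (θ / 2) * (x : ℝ) ^ (1 / 2 - θ)) := by ring

/-- uniform constants for a finite set of pairs -/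
theorem blk_unif (hB : T_XBL) (k : ℕ) (a : Fin k → ℤ) (b : Fin k) (C δ θ : ℝ)
    (ha : Function.Injective a) (ha0 : ∀ j, a j ≠ 0) (hC : 0 < C) (hδ : 0 < δ) (hθ : 0 < θ)
    (Q : Finset (ℕ × ℕ)) (hQ : ∀ pr ∈ Q, pr.1.Prime ∧ pr.2.Prime ∧ pr.1 ≠ pr.2 ∧
      (∀ j, |a j| < pr.1) ∧ ∀ j, |a j| < pr.2) :
    ∃ (K N0 : ℕ) (B : ℝ), 1 ≤ N0 ∧ 0 ≤ B ∧
      ∀ pr ∈ Q, Blk1 k a b pr.1 pr.2 C δ K N0 B (1 / 2 - θ) := by
  classical
  induction Q using Finset.induction_on with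
  | empty => exact ⟨0, 1, 0, le_rfl, le_rfl, by simp⟩
  | insert pr Q hpr ih =>
    obtain ⟨K, N0, B, hN, hB0, H⟩ := ih (fun pr' h => hQ pr' (Finset.mem_insert_of_mem h))
    obtain ⟨h1, h2, h3, h4, h5⟩ := hQ pr (Finset.mem_insert_self _ _)
    obtain ⟨K', N0', B', H'⟩ := hB k a b pr.1 pr.2 C δ θ ha ha0 h1 h2 h3 h4 h5 hC hδ hθ
    refine ⟨max K K', max N0 N0', max B B', le_max_of_le_left hN,
      le_max_of_le_left hB0, ?_⟩
    intro pr' hpr'
    rcases Finset.mem_insert.mp hpr' with h | h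
    · subst h
      exact Blk1.mono H' (le_max_right _ _) (le_max_right _ _) (le_max_of_le_left hN)
        (le_max_right _ _) le_rfl
    · exact (H pr' h).mono (le_max_left _ _) (le_max_left _ _) (le_max_of_le_left hN)
        (le_max_left _ _) le_rfl

/-- the case `θ ≤ 1 / 2` -/
theorem core (hK : T_KAT) (hB : T_XBL) (k : ℕ) (a : Fin k → ℤ) (b : Fin k) (C ε θ : ℝ)
    (ha : Function.Injective a) (ha0 : ∀ j, a j ≠ 0) (hC : 0 < C) (hε : 0 < ε) (hθ : 0 < θ)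
    (hθ2 : θ ≤ 1 / 2) :
    ∃ (J X : ℕ) (B : ℝ), ∀ x : ℕ, X ≤ x → ∀ D : ℕ → ℂ, (∀ n, ‖D n‖ ≤ 1) →
    ∀ S : Finset (EllTw.Pt k),
    (∀ e ∈ S, 1 ≤ e.q ∧ (e.q : ℝ) ≤ (x : ℝ) ^ (1 / 2 - θ) ∧ (∀ j, |e.t j| ≤ (x : ℝ) ^ C) ∧
      ∃ f : ℕ → ℂ, MB f ∧ ε * x < ‖∑ m ∈ Finset.Icc 1 x, f m * (D m * EllTw.W a b e m)‖) →
    (∀ e ∈ S, ∀ e' ∈ S, e ≠ e' → EllTw.Same e.χ e'.χ →
      ∃ l ∈ Finset.Icc 1 k, B * (x : ℝ) ^ l < |tau a (fun j => e.t j - e'.t j) l|) →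
    S.card ≤ J := by
  classical
  obtain ⟨P, δ, X1, hP, hδ, hKat⟩ := hK ε (∑ j, (a j).natAbs) hε
  have haP : ∀ p ∈ P, ∀ j, |a j| < (p : ℤ) := by
    intro p hp j
    have h1 := (hP p hp).2
    have h2 : (a j).natAbs ≤ ∑ j, (a j).natAbs :=
      Finset.single_le_sum (f := fun j => (a j).natAbs) (fun _ _ => Nat.zero_le _)
        (Finset.mem_univ j)
    have h3 : |a j| = ((a j).natAbs : ℤ) := Int.abs_eq_natAbs _
    rw [h3]
    exact_mod_cast lt_of_le_of_lt h2 h1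
  -- the number of blocks
  obtain ⟨I, hI1, hI2⟩ : ∃ I : ℕ, 1 ≤ I ∧ 1 / (2 : ℝ) ^ I ≤ δ / 4 := by
    obtain ⟨n, hn⟩ := exists_pow_lt_of_lt_one (show (0 : ℝ) < δ / 4 by positivity)
      (show (1 / 2 : ℝ) < 1 by norm_num)
    refine ⟨n + 1, by omega, ?_⟩
    rw [one_div_pow] at hn
    refine le_trans ?_ hn.le
    exact one_div_le_one_div_of_le (by positivity) (pow_le_pow_right₀ (by norm_num) (by omega))
  have hI0 : (0 : ℝ) < I := by exact_mod_cast hI1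
  set δ' := δ / (2 * I) with hδ'
  have hδ'0 : 0 < δ' := by positivity
  set Q := (P ×ˢ P).filter (fun pr => pr.1 ≠ pr.2) with hQ
  obtain ⟨K, N0, B, hN0, hB0, HB⟩ := blk_unif hB k a b (2 * C) δ' (θ / 2) ha ha0
    (by positivity) hδ'0 (by positivity) Q (by
      intro pr hpr
      rw [hQ, Finset.mem_filter, Finset.mem_product] at hpr
      exact ⟨(hP _ hpr.1.1).1, (hP _ hpr.1.2).1, hpr.2, haP _ hpr.1.1, haP _ hpr.1.2⟩)
  set Pm := ∑ p ∈ P, p + 1 with hPm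
  have hPle : ∀ p ∈ P, p ≤ Pm := fun p hp =>
    (Finset.single_le_sum (f := fun p => p) (fun _ _ => Nat.zero_le _) hp).trans (Nat.le_succ _)
  have hPm1 : 1 ≤ Pm := by omega
  set κ : ℝ := 1 / (4 * (Pm : ℝ) * 2 ^ I) with hκ
  have hPm0 : (0 : ℝ) < Pm := by exact_mod_cast hPm1
  have hκ0 : 0 < κ := by positivity
  obtain ⟨X2, hX2⟩ := eventually_atTop.mp (large_x κ C hκ0 hC N0)
  obtain ⟨X3, hX3⟩ := eventually_atTop.mp (large_q κ θ hκ0 hθ hθ2)
  refine ⟨K * (Q ×ˢ Finset.range I).card, max X1 (max X2 (max X3 (max (2 * Pm * 2 ^ I)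
    ⌈4 * I / δ⌉₊))), B, ?_⟩
  intro x hx D hD S hS hsep
  have hxX1 : X1 ≤ x := (le_max_left _ _).trans hx
  have hx' := (le_max_right _ _).trans hx
  have hxX2 : X2 ≤ x := (le_max_left _ _).trans hx'
  have hx'' := (le_max_right _ _).trans hx'
  have hxX3 : X3 ≤ x := (le_max_left _ _).trans hx''
  have hx3 := (le_max_right _ _).trans hx''
  have hx4 : 2 * Pm * 2 ^ I ≤ x := (le_max_left _ _).trans hx3
  have hx5 : 4 * (I : ℝ) / δ ≤ x := (Nat.le_ceil _).trans (by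
    exact_mod_cast (le_max_right _ _).trans hx3)
  have hx1 : 1 ≤ x := (hX2 x hxX2).1
  have hx1' : (1 : ℝ) ≤ x := by exact_mod_cast hx1
  -- the part of `S` for a pair of primes and a block
  let lo : ℕ × ℕ → ℕ → ℕ := fun pr i => x / max pr.1 pr.2 / 2 ^ (i + 1) + 1
  let hi : ℕ × ℕ → ℕ → ℕ := fun pr i => x / max pr.1 pr.2 / 2 ^ i
  let β : ℕ × ℕ → ℕ → ℂ := fun pr m => D (pr.1 * m) * conj (D (pr.2 * m))
  let T : (ℕ × ℕ) × ℕ → Finset (Pt k) := fun z => S.filter (fun e =>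
    δ' * x < ‖∑ m ∈ Finset.Ioc (lo z.1 z.2) (hi z.1 z.2),
      β z.1 m * (W a b e (z.1.1 * m) * conj (W a b e (z.1.2 * m)))‖)
  have hcov : S ⊆ (Q ×ˢ Finset.range I).biUnion T := by
    intro e he
    obtain ⟨g1, g2, g3, f, hf, hbad⟩ := hS e he
    have hH : ∀ n, ‖D n * W a b e n‖ ≤ 1 := by
      intro n
      rw [norm_mul]
      exact mul_le_one₀ (hD n) (norm_nonneg _) (norm_W a b e n)
    have hex : ∃ p ∈ P, ∃ q ∈ P, p ≠ q ∧ δ * x < ‖∑ m ∈ Finset.Icc 1 (x / max p q),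
        (D (p * m) * W a b e (p * m)) * conj (D (q * m) * W a b e (q * m))‖ := by
      by_contra hcon
      push Not at hcon
      have := hKat x hxX1 f (fun n => D n * W a b e n) hf hH
        (fun p hp q hq hpq => hcon p hp q hq hpq)
      linarith
    obtain ⟨p, hp, q, hq, hpq, hlarge⟩ := hex
    have hM : x / max p q ≤ x := Nat.div_le_self _ _
    obtain ⟨i, hi', hib⟩ := block_exists (fun m => (D (p * m) * W a b e (p * m)) *
      conj (D (q * m) * W a b e (q * m))) (by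
        intro m
        rw [norm_mul, RCLike.norm_conj]
        exact mul_le_one₀ (hH _) (norm_nonneg _) (hH _)) (x / max p q) x I δ hδ hI1 hI2 hM hx5
        hlarge
    rw [Finset.mem_biUnion]
    refine ⟨((p, q), i), ?_, ?_⟩
    · rw [Finset.mem_product, hQ, Finset.mem_filter, Finset.mem_product]
      exact ⟨⟨⟨hp, hq⟩, hpq⟩, hi'⟩
    · rw [Finset.mem_filter]
      refine ⟨he, ?_⟩
      have e1 : ∑ m ∈ Finset.Ioc (x / max p q / 2 ^ (i + 1) + 1) (x / max p q / 2 ^ i),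
          (D (p * m) * W a b e (p * m)) * conj (D (q * m) * W a b e (q * m)) =
          ∑ m ∈ Finset.Ioc (lo (p, q) i) (hi (p, q) i),
            β (p, q) m * (W a b e (p * m) * conj (W a b e (q * m))) := by
        refine Finset.sum_congr rfl (fun m _ => ?_)
        simp only [β, map_mul]
        ring
      rw [← e1]
      exact hib
  refine (Finset.card_le_card hcov).trans ?_
  refine Finset.card_biUnion_le_card_mul _ _ _ (fun z hz => ?_) |>.trans (by rw [mul_comm])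
  obtain ⟨⟨p, q⟩, i⟩ := z
  rw [Finset.mem_product, hQ, Finset.mem_filter, Finset.mem_product] at hz
  obtain ⟨⟨⟨hp, hq⟩, hpq⟩, hi'⟩ := hz
  simp only at hp hq hpq hi'
  rw [Finset.mem_range] at hi'
  rcases (T ((p, q), i)).eq_empty_or_nonempty with hemp | hne
  · rw [hemp]
    simp
  have hpm : 1 ≤ max p q := (hP p hp).1.one_le.trans (le_max_left _ _)
  have hpm2 : max p q ≤ Pm := max_le (hPle p hp) (hPle q hq)
  have hlo : κ * x ≤ (lo (p, q) i : ℝ) := by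
    refine block_size (x / max p q) x Pm I i hi' hPm1 ?_ hx4
    exact Nat.div_le_div_left hpm2 hpm
  obtain ⟨-, hX2'⟩ := hX2 x hxX2
  have m5 := hX3 x hxX3 _ hlo
  obtain ⟨m1, m2, m3⟩ := hX2' _ hlo
  have hhl : hi (p, q) i ≤ 2 * lo (p, q) i := by
    change x / max p q / 2 ^ i ≤ 2 * (x / max p q / 2 ^ (i + 1) + 1)
    have : x / max p q / 2 ^ (i + 1) = x / max p q / 2 ^ i / 2 := by
      rw [Nat.div_div_eq_div_mul (x / max p q), pow_succ]
    rw [this]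
    omega
  have hlh : lo (p, q) i ≤ hi (p, q) i := by
    obtain ⟨e, he⟩ := hne
    by_contra hcon
    push Not at hcon
    rw [Finset.mem_filter] at he
    have h1 := he.2
    simp only at h1
    rw [Finset.Ioc_eq_empty_of_le hcon.le, Finset.sum_empty, norm_zero] at h1
    have : 0 ≤ δ' * x := by positivity
    linarith
  have hlox : lo (p, q) i ≤ x := hlh.trans ((Nat.div_le_self _ _).trans (Nat.div_le_self _ _))
  have hlox' : ((lo (p, q) i : ℕ) : ℝ) ≤ x := by exact_mod_cast hlox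
  refine HB (p, q) (by
    rw [hQ, Finset.mem_filter, Finset.mem_product]
    exact ⟨⟨hp, hq⟩, hpq⟩) (lo (p, q) i) m1 (lo (p, q) i) (hi (p, q) i) le_rfl hlh hhl
    (β (p, q)) (T ((p, q), i)) ?_ ?_ ?_
  · intro m
    change ‖D (p * m) * conj (D (q * m))‖ ≤ 1
    rw [norm_mul, RCLike.norm_conj]
    exact mul_le_one₀ (hD _) (norm_nonneg _) (hD _)
  · intro e he
    rw [Finset.mem_filter] at he
    obtain ⟨g1, g2, g3, -⟩ := hS e he.1
    refine ⟨g1, ?_, fun j => (g3 j).trans m2, ?_⟩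
    · exact g2.trans m5
    · refine lt_of_le_of_lt ?_ he.2
      exact mul_le_mul_of_nonneg_left hlox' hδ'0.le
  · intro e he e' he' hne' hsame
    rw [Finset.mem_filter] at he he'
    obtain ⟨l, hl, hl2⟩ := hsep e he.1 e' he'.1 hne' hsame
    refine ⟨l, hl, lt_of_le_of_lt ?_ hl2⟩
    refine mul_le_mul_of_nonneg_left ?_ hB0
    exact pow_le_pow_left₀ (by positivity) hlox' l

end Pool.Agent.TPX.XTW_

namespace Pool.Agent.TPX

open Finset Filter Pool.Agent.Ell Pool.Agent.Ell.KeyA Pool.Agent.Ell.KeyE Pool.Agent.EllTw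
open scoped BigOperators ComplexConjugate

theorem prove_XTW (h1 : T_KAT) (h2 : T_XBL) : T_XTW := by
  intro k a b C ε θ ha ha0 hC hε hθ
  obtain ⟨J, X, B, H⟩ := XTW_.core h1 h2 k a b C ε (min θ (1 / 2)) ha ha0 hC hε
    (lt_min hθ (by norm_num)) (min_le_right _ _)
  refine ⟨J, max X 1, B, fun x hx D hD S hS hsep => ?_⟩
  have hx1 : (1 : ℝ) ≤ x := by exact_mod_cast (le_max_right _ _).trans hx
  refine H x ((le_max_left _ _).trans hx) D hD S (fun e he => ?_) hsep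
  obtain ⟨g1, g2, g3, g4⟩ := hS e he
  refine ⟨g1, g2.trans (Real.rpow_le_rpow_of_exponent_le hx1 ?_), g3, g4⟩
  have := min_le_left θ (1 / 2)
  linarith

end Pool.Agent.TPX
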